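import Mathlib

/-!
# Level rectangles, part 1: expansions (helper446)
-/

set_option autoImplicit false

namespace Pool.Agent.Y446.RT

open Complex

noncomputable section

/-! ### powers -/

/-- even part of `(e + c) ^ k` -/
def Ev (k : ℕ) (e c : ℂ) : ℂ := ((e + c) ^ k + (e - c) ^ k) / 2

/-- odd part of `(e + c) ^ k` -/
def Od (k : ℕ) (e c : ℂ) : ℂ := ((e + c) ^ k - (e - c) ^ k) / 2

lemma Ev_succ (k : ℕ) (e c : ℂ) : Ev (k + 1) e c = e * Ev k e c + c * Od k e c := by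
  unfold Ev Od; ring

lemma Od_succ (k : ℕ) (e c : ℂ) : Od (k + 1) e c = e * Od k e c + c * Ev k e c := by
  unfold Ev Od; ring

lemma pw (k : ℕ) (e c : ℂ) (he : ‖e‖ = 1) (hc : ‖c‖ ≤ 1) :
    ‖Ev k e c - e ^ k‖ ≤ 3 ^ k * ‖c‖ ^ 2 ∧ ‖Od k e c‖ ≤ 3 ^ k * ‖c‖ ∧
      ‖Od k e c - k * e ^ (k - 1) * c‖ ≤ 3 ^ k * ‖c‖ ^ 3 := by
  have hc0 := norm_nonneg c
  induction k with
  | zero =>
    unfold Ev Od
    refine ⟨?_, ?_, ?_⟩ <;> norm_num <;> positivity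
  | succ k ih =>
    obtain ⟨h1, h2, h3⟩ := ih
    have h3k : (1 : ℝ) ≤ 3 ^ k := one_le_pow₀ (by norm_num)
    have hsq : ‖c‖ ^ 2 ≤ 1 := by nlinarith
    refine ⟨?_, ?_, ?_⟩
    · have e1 : Ev (k + 1) e c - e ^ (k + 1) = e * (Ev k e c - e ^ k) + c * Od k e c := by
        rw [Ev_succ]; ring
      rw [e1]
      calc _ ≤ ‖e * (Ev k e c - e ^ k)‖ + ‖c * Od k e c‖ := norm_add_le _ _
        _ = ‖Ev k e c - e ^ k‖ + ‖c‖ * ‖Od k e c‖ := by rw [norm_mul, norm_mul, he, one_mul]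
        _ ≤ 3 ^ k * ‖c‖ ^ 2 + ‖c‖ * (3 ^ k * ‖c‖) := by gcongr
        _ = 2 * 3 ^ k * ‖c‖ ^ 2 := by ring
        _ ≤ 3 ^ (k + 1) * ‖c‖ ^ 2 := by
          rw [pow_succ (3 : ℝ) k]
          have : 0 ≤ 3 ^ k * ‖c‖ ^ 2 := by positivity
          nlinarith
    · have hE : ‖Ev k e c‖ ≤ 3 ^ k + 1 := by
        have h4 : Ev k e c = (Ev k e c - e ^ k) + e ^ k := by ring
        rw [h4]
        calc _ ≤ ‖Ev k e c - e ^ k‖ + ‖e ^ k‖ := norm_add_le _ _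
          _ ≤ 3 ^ k * ‖c‖ ^ 2 + 1 := by
            rw [norm_pow, he, one_pow]; gcongr
          _ ≤ 3 ^ k + 1 := by nlinarith
      rw [Od_succ]
      calc _ ≤ ‖e * Od k e c‖ + ‖c * Ev k e c‖ := norm_add_le _ _
        _ = ‖Od k e c‖ + ‖c‖ * ‖Ev k e c‖ := by rw [norm_mul, norm_mul, he, one_mul]
        _ ≤ 3 ^ k * ‖c‖ + ‖c‖ * (3 ^ k + 1) := by gcongr
        _ = (2 * 3 ^ k + 1) * ‖c‖ := by ring
        _ ≤ 3 ^ (k + 1) * ‖c‖ := by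
          gcongr
          rw [pow_succ]; linarith
    · have e1 : Od (k + 1) e c - ((k + 1 : ℕ) : ℂ) * e ^ (k + 1 - 1) * c =
          e * (Od k e c - k * e ^ (k - 1) * c) + c * (Ev k e c - e ^ k) := by
        rw [Od_succ]
        rcases k with _ | k
        · simp; ring
        · have h5 : k + 1 + 1 - 1 = k + 1 := rfl
          have h6 : k + 1 - 1 = k := rfl
          rw [h5, h6]
          push_cast
          ring
      rw [e1]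
      calc _ ≤ ‖e * (Od k e c - k * e ^ (k - 1) * c)‖ + ‖c * (Ev k e c - e ^ k)‖ := norm_add_le _ _
        _ = ‖Od k e c - k * e ^ (k - 1) * c‖ + ‖c‖ * ‖Ev k e c - e ^ k‖ := by
          rw [norm_mul, norm_mul, he, one_mul]
        _ ≤ 3 ^ k * ‖c‖ ^ 3 + ‖c‖ * (3 ^ k * ‖c‖ ^ 2) := by gcongr
        _ = 2 * 3 ^ k * ‖c‖ ^ 3 := by ring
        _ ≤ 3 ^ (k + 1) * ‖c‖ ^ 3 := by
          rw [pow_succ (3 : ℝ) k]
          have : 0 ≤ 3 ^ k * ‖c‖ ^ 3 := by positivity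
          nlinarith

/-! ### uniform orders -/

/-- `f = O(ε ^ k)` uniformly -/
def BO (ε : ℕ → ℝ) (k : ℕ) (f : ℕ → ℝ) : Prop := ∃ C, 0 ≤ C ∧ ∀ n, |f n| ≤ C * ε n ^ k

variable {ε : ℕ → ℝ}

lemma BO.add {k : ℕ} {f g : ℕ → ℝ} (hf : BO ε k f) (hg : BO ε k g) :
    BO ε k (fun n => f n + g n) := by
  obtain ⟨C, hC, h⟩ := hf
  obtain ⟨D, hD, h'⟩ := hg
  refine ⟨C + D, by positivity, fun n => ?_⟩
  calc _ ≤ |f n| + |g n| := abs_add_le _ _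
    _ ≤ C * ε n ^ k + D * ε n ^ k := add_le_add (h n) (h' n)
    _ = _ := by ring

lemma BO.neg {k : ℕ} {f : ℕ → ℝ} (hf : BO ε k f) : BO ε k (fun n => -f n) := by
  obtain ⟨C, hC, h⟩ := hf
  exact ⟨C, hC, fun n => by rw [abs_neg]; exact h n⟩

lemma BO.sub {k : ℕ} {f g : ℕ → ℝ} (hf : BO ε k f) (hg : BO ε k g) :
    BO ε k (fun n => f n - g n) := by
  simpa [sub_eq_add_neg] using hf.add hg.neg

lemma BO.mul {j k : ℕ} {f g : ℕ → ℝ} (hf : BO ε j f) (hg : BO ε k g) :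
    BO ε (j + k) (fun n => f n * g n) := by
  obtain ⟨C, hC, h⟩ := hf
  obtain ⟨D, hD, h'⟩ := hg
  refine ⟨C * D, by positivity, fun n => ?_⟩
  rw [abs_mul]
  calc _ ≤ (C * ε n ^ j) * (D * ε n ^ k) := mul_le_mul (h n) (h' n) (abs_nonneg _)
        (le_trans (abs_nonneg _) (h n))
    _ = _ := by rw [pow_add]; ring

lemma BO.congr {k : ℕ} {f g : ℕ → ℝ} (hf : BO ε k f) (h : ∀ n, g n = f n) : BO ε k g := by
  obtain ⟨C, hC, h'⟩ := hf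
  exact ⟨C, hC, fun n => by rw [h n]; exact h' n⟩

lemma BO.mono (hε : ∀ n, 0 < ε n ∧ ε n ≤ 1) {j k : ℕ} (hjk : j ≤ k) {f : ℕ → ℝ}
    (hf : BO ε k f) : BO ε j f := by
  obtain ⟨C, hC, h⟩ := hf
  refine ⟨C, hC, fun n => (h n).trans ?_⟩
  gcongr C * ?_
  exact pow_le_pow_of_le_one (hε n).1.le (hε n).2 hjk

lemma BO.of_bound {k : ℕ} {f : ℕ → ℝ} (C : ℝ) (hC : 0 ≤ C) (h : ∀ n, |f n| ≤ C * ε n ^ k) :
    BO ε k f := ⟨C, hC, h⟩

lemma BO.const (a : ℝ) : BO ε 0 (fun _ => a) :=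
  ⟨|a|, abs_nonneg _, fun n => by simp⟩

lemma BO.bdd {f : ℕ → ℝ} (C : ℝ) (hC : 0 ≤ C) (h : ∀ n, |f n| ≤ C) : BO ε 0 f :=
  ⟨C, hC, fun n => by simpa using h n⟩

lemma BO.eps (hε : ∀ n, 0 < ε n ∧ ε n ≤ 1) : BO ε 1 ε :=
  ⟨1, by norm_num, fun n => by rw [pow_one, one_mul, abs_of_pos (hε n).1]⟩

lemma BO.cmul {k : ℕ} (a : ℝ) {f : ℕ → ℝ} (hf : BO ε k f) : BO ε k (fun n => a * f n) := by
  have := (BO.const (ε := ε) a).mul hf
  rwa [zero_add] at this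

/-- a nonzero constant times `ε ^ k` is not `O(ε ^ (k + 1))` if `ε → 0` -/
lemma BO.contra (hε : ∀ n, 0 < ε n ∧ ε n ≤ 1) (hlim : ∀ η : ℝ, 0 < η → ∃ n, ε n < η) {k : ℕ}
    {T : ℝ} (hT : T ≠ 0) (h : BO ε (k + 1) (fun n => T * ε n ^ k)) : False := by
  obtain ⟨C, hC, h⟩ := h
  obtain ⟨n, hn⟩ := hlim (|T| / (C + 1)) (by positivity)
  have h1 := h n
  have hp := (hε n).1
  rw [abs_mul, abs_pow, abs_of_pos hp, pow_succ] at h1
  have hk : 0 < ε n ^ k := by positivity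
  have h2 : |T| ≤ C * ε n := by
    have : |T| * ε n ^ k ≤ (C * ε n) * ε n ^ k := by linarith
    exact le_of_mul_le_mul_right this hk
  have h3 : ε n * (C + 1) < |T| := by rwa [lt_div_iff₀ (by positivity)] at hn
  nlinarith

end

end Pool.Agent.Y446.RT
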