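import Mathlib
import Pool.Agent.Y446.RT.Asy

/-!
# Level rectangles, part 2: one diagonal (helper446)
-/

set_option autoImplicit false

namespace Pool.Agent.Y446.RT

open Complex

noncomputable section

/-- the odd perturbation -/
def aa (m : ℕ) (z : ℂ) : ℝ := (z ^ m).re

/-- the radial factor -/
def rr (m : ℕ) (z : ℂ) : ℝ := (z ^ (2 * m)).im

/-- the second order correction -/
def bb0 (m : ℕ) (A : ℝ) (z : ℂ) : ℝ := A * (z ^ (2 * m)).re

/-- the third order correction -/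
def bb1 (m : ℕ) (B1 B2 : ℝ) (z : ℂ) : ℝ := B1 * (z ^ (2 * m)).im + B2 * (z ^ (4 * m)).im

/-- the function near the unit circle -/
def FF (m : ℕ) (A B1 B2 ε : ℝ) (z : ℂ) : ℝ :=
  (1 + ε * rr m z) * (-(normSq z - 1) + ε * aa m z) + ε ^ 2 * (bb0 m A z + ε * bb1 m B1 B2 z)

lemma pow_add' (k : ℕ) (e c : ℂ) : (c + e) ^ k = Ev k e c + Od k e c := by
  unfold Ev Od; rw [add_comm c e]; ring

lemma pow_sub_even (k : ℕ) (hk : Even k) (e c : ℂ) : (c - e) ^ k = Ev k e c - Od k e c := by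
  unfold Ev Od
  rw [show c - e = -(e - c) by ring, hk.neg_pow]
  ring

lemma pow_sub_odd (k : ℕ) (hk : Odd k) (e c : ℂ) : (c - e) ^ k = -Ev k e c + Od k e c := by
  unfold Ev Od
  rw [show c - e = -(e - c) by ring, hk.neg_pow]
  ring

lemma nsq_add (c e : ℂ) (he : ‖e‖ = 1) :
    normSq (c + e) - 1 = normSq c + 2 * (c * (starRingEnd ℂ) e).re := by
  rw [normSq_add, normSq_eq_norm_sq e, he]; ring

lemma nsq_sub (c e : ℂ) (he : ‖e‖ = 1) :
    normSq (c - e) - 1 = normSq c - 2 * (c * (starRingEnd ℂ) e).re := by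
  rw [normSq_sub, normSq_eq_norm_sq e, he]; ring

/-- The two equations for one diagonal. -/
lemma one {ε μ : ℕ → ℝ} (hε : ∀ n, 0 < ε n ∧ ε n ≤ 1) (m : ℕ) (hm : Odd m) (A B1 B2 : ℝ)
    (c e : ℕ → ℂ) (he : ∀ n, ‖e n‖ = 1) (C : ℝ) (hC : 0 ≤ C) (hc : ∀ n, ‖c n‖ ≤ C * ε n)
    (hc1 : ∀ n, ‖c n‖ ≤ 1)
    (hp : ∀ n, FF m A B1 B2 (ε n) (c n + e n) = μ n)
    (hq : ∀ n, FF m A B1 B2 (ε n) (c n - e n) = μ n) :
    BO ε 3 (fun n => -2 * (c n * (starRingEnd ℂ) (e n)).re + ε n * (e n ^ m).re) ∧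
    BO ε 4 (fun n => μ n - ((1 + ε n * (e n ^ (2 * m)).im) *
      (-normSq (c n) + ε n * (m * e n ^ (m - 1) * c n).re) +
      ε n ^ 2 * (A * (e n ^ (2 * m)).re + ε n * (B1 * (e n ^ (2 * m)).im +
        B2 * (e n ^ (4 * m)).im)))) := by
  have hεe := BO.eps hε
  have hm2 : Even (2 * m) := even_two_mul m
  have hm4 : Even (4 * m) := ⟨2 * m, by ring⟩
  -- sizes
  have hEv : ∀ k : ℕ, (BO ε 2 fun n => (Ev k (e n) (c n) - e n ^ k).re) ∧
      BO ε 2 fun n => (Ev k (e n) (c n) - e n ^ k).im := by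
    intro k
    have hb : ∀ n, ‖Ev k (e n) (c n) - e n ^ k‖ ≤ 3 ^ k * C ^ 2 * ε n ^ 2 := by
      intro n
      calc _ ≤ 3 ^ k * ‖c n‖ ^ 2 := (pw k (e n) (c n) (he n) (hc1 n)).1
        _ ≤ 3 ^ k * (C * ε n) ^ 2 := by gcongr; exact hc n
        _ = _ := by ring
    exact ⟨⟨_, by positivity, fun n => (abs_re_le_norm _).trans (hb n)⟩,
      ⟨_, by positivity, fun n => (abs_im_le_norm _).trans (hb n)⟩⟩
  have hOd : ∀ k : ℕ, (BO ε 1 fun n => (Od k (e n) (c n)).re) ∧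
      BO ε 1 fun n => (Od k (e n) (c n)).im := by
    intro k
    have hb : ∀ n, ‖Od k (e n) (c n)‖ ≤ 3 ^ k * C * ε n ^ 1 := by
      intro n
      calc _ ≤ 3 ^ k * ‖c n‖ := (pw k (e n) (c n) (he n) (hc1 n)).2.1
        _ ≤ 3 ^ k * (C * ε n) := by gcongr; exact hc n
        _ = _ := by ring
    exact ⟨⟨_, by positivity, fun n => (abs_re_le_norm _).trans (hb n)⟩,
      ⟨_, by positivity, fun n => (abs_im_le_norm _).trans (hb n)⟩⟩
  have hpe : ∀ k : ℕ, (BO ε 0 fun n => (e n ^ k).re) ∧ BO ε 0 fun n => (e n ^ k).im := by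
    intro k
    have hb : ∀ n, ‖e n ^ k‖ ≤ 1 := by
      intro n
      rw [norm_pow, he n, one_pow]
    exact ⟨BO.bdd 1 (by norm_num) fun n => (abs_re_le_norm _).trans (hb n),
      BO.bdd 1 (by norm_num) fun n => (abs_im_le_norm _).trans (hb n)⟩
  have hEv0 : ∀ k : ℕ, (BO ε 0 fun n => (Ev k (e n) (c n)).re) ∧
      BO ε 0 fun n => (Ev k (e n) (c n)).im := by
    intro k
    refine ⟨?_, ?_⟩
    · refine (((hEv k).1.mono hε (by norm_num : 0 ≤ 2)).add (hpe k).1).congr fun n => ?_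
      rw [sub_re]; ring
    · refine (((hEv k).2.mono hε (by norm_num : 0 ≤ 2)).add (hpe k).2).congr fun n => ?_
      rw [sub_im]; ring
  have hN : BO ε 2 fun n => normSq (c n) := by
    refine BO.of_bound (C ^ 2) (by positivity) fun n => ?_
    rw [abs_of_nonneg (normSq_nonneg _), normSq_eq_norm_sq]
    calc ‖c n‖ ^ 2 ≤ (C * ε n) ^ 2 := by gcongr; exact hc n
      _ = _ := by ring
  have hh : BO ε 1 fun n => (c n * (starRingEnd ℂ) (e n)).re := by
    refine BO.of_bound C hC fun n => (abs_re_le_norm _).trans ?_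
    rw [norm_mul, RCLike.norm_conj, he n, mul_one, pow_one]
    exact hc n
  have ha1 : BO ε 3 fun n => (Od m (e n) (c n)).re - (m * e n ^ (m - 1) * c n).re := by
    refine BO.of_bound (3 ^ m * C ^ 3) (by positivity) fun n => ?_
    rw [← sub_re]
    calc _ ≤ ‖Od m (e n) (c n) - m * e n ^ (m - 1) * c n‖ := abs_re_le_norm _
      _ ≤ 3 ^ m * ‖c n‖ ^ 3 := (pw m (e n) (c n) (he n) (hc1 n)).2.2
      _ ≤ 3 ^ m * (C * ε n) ^ 3 := by gcongr; exact hc n
      _ = _ := by ring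
  have ha1' : BO ε 1 fun n => (m * e n ^ (m - 1) * c n).re := by
    refine ((hOd m).1.sub (ha1.mono hε (by norm_num : 1 ≤ 3))).congr fun n => by ring
  -- the equations
  have hI : ∀ n, (1 + ε n * (Ev (2 * m) (e n) (c n)).im) *
      (-normSq (c n) + ε n * (Od m (e n) (c n)).re) +
      ε n * (Od (2 * m) (e n) (c n)).im * (-2 * (c n * (starRingEnd ℂ) (e n)).re +
        ε n * (Ev m (e n) (c n)).re) + ε n ^ 2 * (A * (Ev (2 * m) (e n) (c n)).re +
        ε n * (B1 * (Ev (2 * m) (e n) (c n)).im + B2 * (Ev (4 * m) (e n) (c n)).im)) = μ n := by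
    intro n
    have h1 := hp n
    have h2 := hq n
    unfold FF rr aa bb0 bb1 at h1 h2
    rw [nsq_add _ _ (he n), pow_add', pow_add', pow_add'] at h1
    rw [nsq_sub _ _ (he n), pow_sub_odd m hm, pow_sub_even _ hm2, pow_sub_even _ hm4] at h2
    simp only [add_re, add_im, sub_re, sub_im, neg_re] at h1 h2
    linear_combination (h1 + h2) / 2
  have hII : ∀ n, -2 * (c n * (starRingEnd ℂ) (e n)).re + ε n * (Ev m (e n) (c n)).re =
      -(ε n * (Ev (2 * m) (e n) (c n)).im * (-2 * (c n * (starRingEnd ℂ) (e n)).re +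
        ε n * (Ev m (e n) (c n)).re)) - ε n * (Od (2 * m) (e n) (c n)).im *
      (-normSq (c n) + ε n * (Od m (e n) (c n)).re) - ε n ^ 2 * (A * (Od (2 * m) (e n) (c n)).re +
        ε n * (B1 * (Od (2 * m) (e n) (c n)).im + B2 * (Od (4 * m) (e n) (c n)).im)) := by
    intro n
    have h1 := hp n
    have h2 := hq n
    unfold FF rr aa bb0 bb1 at h1 h2
    rw [nsq_add _ _ (he n), pow_add', pow_add', pow_add'] at h1
    rw [nsq_sub _ _ (he n), pow_sub_odd m hm, pow_sub_even _ hm2, pow_sub_even _ hm4] at h2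
    simp only [add_re, add_im, sub_re, sub_im, neg_re] at h1 h2
    linear_combination (h1 - h2) / 2
  have hGe : BO ε 2 fun n => -normSq (c n) + ε n * (Od m (e n) (c n)).re :=
    hN.neg.add (hεe.mul (hOd m).1)
  have hG1 : BO ε 1 fun n => -2 * (c n * (starRingEnd ℂ) (e n)).re +
      ε n * (Ev m (e n) (c n)).re := (hh.cmul (-2)).add (hεe.mul (hEv0 m).1)
  have hrest : BO ε 3 fun n => ε n * (Od (2 * m) (e n) (c n)).im *
      (-normSq (c n) + ε n * (Od m (e n) (c n)).re) + ε n ^ 2 * (A * (Od (2 * m) (e n) (c n)).re +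
        ε n * (B1 * (Od (2 * m) (e n) (c n)).im + B2 * (Od (4 * m) (e n) (c n)).im)) := by
    have t1 := ((hεe.mul (hOd (2 * m)).2).mul hGe).mono hε (by norm_num : 3 ≤ 1 + 1 + 2)
    have t2 : BO ε 1 fun n => A * (Od (2 * m) (e n) (c n)).re +
        ε n * (B1 * (Od (2 * m) (e n) (c n)).im + B2 * (Od (4 * m) (e n) (c n)).im) :=
      ((hOd (2 * m)).1.cmul A).add ((hεe.mul (((hOd (2 * m)).2.cmul B1).add
        ((hOd (4 * m)).2.cmul B2))).mono hε (by norm_num : 1 ≤ 1 + 1))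
    have t3 := (hεe.mul hεe).mul t2
    exact (t1.add t3).congr fun n => by ring
  have hstep : ∀ j : ℕ, j + 1 ≤ 3 → (BO ε j fun n => -2 * (c n * (starRingEnd ℂ) (e n)).re +
      ε n * (Ev m (e n) (c n)).re) → BO ε (j + 1) fun n =>
      -2 * (c n * (starRingEnd ℂ) (e n)).re + ε n * (Ev m (e n) (c n)).re := by
    intro j hj h
    have t1 := (hεe.mul (hEv0 (2 * m)).2).mul h
    have t2 : BO ε (j + 1) fun n => -(ε n * (Ev (2 * m) (e n) (c n)).im *
        (-2 * (c n * (starRingEnd ℂ) (e n)).re + ε n * (Ev m (e n) (c n)).re)) := by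
      have := t1.neg
      rwa [show 1 + 0 + j = j + 1 by ring] at this
    refine (t2.sub (hrest.mono hε hj)).congr fun n => ?_
    linear_combination hII n
  have hG3 := hstep 2 (by norm_num) (hstep 1 (by norm_num) hG1)
  refine ⟨?_, ?_⟩
  · refine (hG3.sub (hεe.mul (hEv m).1)).congr fun n => ?_
    rw [sub_re]; ring
  · have t1 : BO ε 4 fun n => (1 + ε n * (Ev (2 * m) (e n) (c n)).im) *
        (ε n * ((Od m (e n) (c n)).re - (m * e n ^ (m - 1) * c n).re)) := by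
      have := ((BO.const (ε := ε) 1).add ((hεe.mul (hEv0 (2 * m)).2).mono hε
        (by norm_num : 0 ≤ 1 + 0))).mul (hεe.mul ha1)
      exact this
    have t2 : BO ε 4 fun n => ε n * (Ev (2 * m) (e n) (c n) - e n ^ (2 * m)).im *
        (-normSq (c n) + ε n * (m * e n ^ (m - 1) * c n).re) :=
      ((hεe.mul (hEv (2 * m)).2).mul (hN.neg.add (hεe.mul ha1'))).mono hε
        (by norm_num : 4 ≤ 1 + 2 + 2)
    have t3 : BO ε 4 fun n => ε n * (Od (2 * m) (e n) (c n)).im *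
        (-2 * (c n * (starRingEnd ℂ) (e n)).re + ε n * (Ev m (e n) (c n)).re) :=
      ((hεe.mul (hOd (2 * m)).2).mul hG3).mono hε (by norm_num : 4 ≤ 1 + 1 + 3)
    have t4 : BO ε 4 fun n => ε n * ε n * (A * (Ev (2 * m) (e n) (c n) - e n ^ (2 * m)).re +
        ε n * (B1 * (Ev (2 * m) (e n) (c n) - e n ^ (2 * m)).im +
          B2 * (Ev (4 * m) (e n) (c n) - e n ^ (4 * m)).im)) :=
      (hεe.mul hεe).mul (((hEv (2 * m)).1.cmul A).add ((hεe.mul (((hEv (2 * m)).2.cmul B1).add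
        ((hEv (4 * m)).2.cmul B2))).mono hε (by norm_num : 2 ≤ 1 + 2)))
    refine (((t1.add t2).add t3).add t4).congr fun n => ?_
    rw [← hI n]
    simp only [sub_re, sub_im]
    ring

end

end Pool.Agent.Y446.RT
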