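import Mathlib
import Pool.Agent.Y446.RT.One

/-!
# Level rectangles, part 3: both diagonals (helper446)
-/

set_option autoImplicit false

namespace Pool.Agent.Y446.RT

open Complex

noncomputable section

/-- The algebra of the third order. -/
lemma alg (C S P Q p q x y mm A B1 B2 T ε : ℝ) (hC : C ^ 2 + S ^ 2 = 1)
    (hA : 4 * P * Q * A = -(mm * q * (x - y)))
    (hB1 : 2 * B1 = -((-x ^ 2 + mm * p * x) + (-y ^ 2 + mm * p * y)))
    (hB2 : 16 * B2 * (P * Q * (P ^ 2 - Q ^ 2)) =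
      -(2 * P * Q * ((-x ^ 2 + mm * p * x) - (-y ^ 2 + mm * p * y)) +
        (P ^ 2 - Q ^ 2) * (mm * (x - y) * q)))
    (hT : 2 * T = 2 * P * Q * ((-x ^ 2 + mm * p * x) - (-y ^ 2 + mm * p * y)) -
        (P ^ 2 - Q ^ 2) * (mm * (x - y) * q)) :
    ((1 + ε * (2 * (C * P - S * Q) * (C * Q + S * P))) *
        ((C ^ 2 * (-x ^ 2 + mm * p * x) + S ^ 2 * (-y ^ 2 + mm * p * y)) -
          mm * (C * S) * (x - y) * q) +
      (A * ((C * P - S * Q) ^ 2 - (C * Q + S * P) ^ 2) +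
        ε * (B1 * (2 * (C * P - S * Q) * (C * Q + S * P)) +
          B2 * (2 * ((C * P - S * Q) ^ 2 - (C * Q + S * P) ^ 2) *
            (2 * (C * P - S * Q) * (C * Q + S * P)))))) -
    ((1 + ε * (2 * (C * P + S * Q) * (S * P - C * Q))) *
        ((C ^ 2 * (-x ^ 2 + mm * p * x) + S ^ 2 * (-y ^ 2 + mm * p * y)) +
          mm * (C * S) * (x - y) * q) +
      (A * ((C * P + S * Q) ^ 2 - (S * P - C * Q) ^ 2) +
        ε * (B1 * (2 * (C * P + S * Q) * (S * P - C * Q)) +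
          B2 * (2 * ((C * P + S * Q) ^ 2 - (S * P - C * Q) ^ 2) *
            (2 * (C * P + S * Q) * (S * P - C * Q)))))) = ε * T := by
  linear_combination (-2 * C * S) * hA + ε * (2 * (C ^ 2 - S ^ 2) * P * Q * hB1 +
    (1 / 2) * ((C ^ 2 - S ^ 2) ^ 2 - 4 * C ^ 2 * S ^ 2) * hB2 - (1 / 2) * hT +
    (2 * (C ^ 2 - S ^ 2) * P * Q * ((-x ^ 2 + mm * p * x) + (-y ^ 2 + mm * p * y)) +
      (C ^ 2 + S ^ 2 + 1) * (2 * P * Q * ((-x ^ 2 + mm * p * x) - (-y ^ 2 + mm * p * y)) -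
        (P ^ 2 - Q ^ 2) * (mm * (x - y) * q)) / 2) * hC)

/-- the nonresonance conditions for the half angle `w` and the harmonic `m` -/
structure NR (m : ℕ) (w : ℂ) : Prop where
  odd : Odd m
  nw : ‖w‖ = 1
  c0 : w.re ≠ 0
  s0 : w.im ≠ 0
  P0 : (w ^ m).re ≠ 0
  Q0 : (w ^ m).im ≠ 0
  PQ : (w ^ m).re ^ 2 - (w ^ m).im ^ 2 ≠ 0
  T0 : 2 * (w ^ m).re * (w ^ m).im *
      ((-((w ^ m).re / (2 * w.re)) ^ 2 + m * (w ^ (m - 1)).re * ((w ^ m).re / (2 * w.re))) -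
        (-((w ^ m).im / (2 * w.im)) ^ 2 + m * (w ^ (m - 1)).re * ((w ^ m).im / (2 * w.im)))) -
      ((w ^ m).re ^ 2 - (w ^ m).im ^ 2) *
        (m * ((w ^ m).re / (2 * w.re) - (w ^ m).im / (2 * w.im)) * (w ^ (m - 1)).im) ≠ 0

lemma half_ex (a : ℝ) : ∃ t : ℝ, 2 * t = a := ⟨a / 2, by ring⟩

lemma div_ex (a b k : ℝ) (hb : b ≠ 0) (hk : k ≠ 0) : ∃ t : ℝ, k * t * b = a :=
  ⟨a / (k * b), by field_simp⟩

theorem two_seq (m : ℕ) (w : ℂ) (h : NR m w) : ∃ A B1 B2 : ℝ, ∀ (ε μ : ℕ → ℝ) (c δ : ℕ → ℂ),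
    (∀ n, 0 < ε n ∧ ε n ≤ 1) → (∀ η : ℝ, 0 < η → ∃ n, ε n < η) →
    (∀ n, ‖δ n‖ = 1) → (∃ C : ℝ, 0 ≤ C ∧ ∀ n, ‖c n‖ ≤ C * ε n) → (∀ n, ‖c n‖ ≤ 1) →
    (∀ n, FF m A B1 B2 (ε n) (c n + δ n * w) = μ n) →
    (∀ n, FF m A B1 B2 (ε n) (c n - δ n * w) = μ n) →
    (∀ n, FF m A B1 B2 (ε n) (c n + δ n * (starRingEnd ℂ) w) = μ n) →
    (∀ n, FF m A B1 B2 (ε n) (c n - δ n * (starRingEnd ℂ) w) = μ n) → False := by
  obtain ⟨hodd, nw, c0, s0, P0, Q0, PQ, T0⟩ := h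
  obtain ⟨cp, hcp⟩ : ∃ cp, cp = w.re := ⟨_, rfl⟩
  obtain ⟨sp, hsp⟩ : ∃ sp, sp = w.im := ⟨_, rfl⟩
  obtain ⟨P, hP⟩ : ∃ P, P = (w ^ m).re := ⟨_, rfl⟩
  obtain ⟨Q, hQ⟩ : ∃ Q, Q = (w ^ m).im := ⟨_, rfl⟩
  obtain ⟨p, hp⟩ : ∃ p, p = (w ^ (m - 1)).re := ⟨_, rfl⟩
  obtain ⟨q, hq⟩ : ∃ q, q = (w ^ (m - 1)).im := ⟨_, rfl⟩
  rw [← hcp] at c0 T0
  rw [← hsp] at s0 T0
  rw [← hP] at P0 PQ T0
  rw [← hQ] at Q0 PQ T0
  rw [← hp, ← hq] at T0
  obtain ⟨x, hx⟩ : ∃ x, x = P / (2 * cp) := ⟨_, rfl⟩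
  obtain ⟨y, hy⟩ : ∃ y, y = Q / (2 * sp) := ⟨_, rfl⟩
  rw [← hx, ← hy] at T0
  have hx' : P = 2 * cp * x := by rw [hx]; field_simp
  have hy' : Q = 2 * sp * y := by rw [hy]; field_simp
  obtain ⟨T, hT⟩ : ∃ T, 2 * T = 2 * P * Q * ((-x ^ 2 + m * p * x) - (-y ^ 2 + m * p * y)) -
      (P ^ 2 - Q ^ 2) * (m * (x - y) * q) := half_ex _
  have hT0 : T ≠ 0 := by
    intro h0
    rw [← hT, h0, mul_zero] at T0
    exact T0 rfl
  obtain ⟨A, hA⟩ : ∃ A, 4 * P * Q * A = -(m * q * (x - y)) :=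
    ⟨-(m * q * (x - y)) / (4 * P * Q), by field_simp⟩
  obtain ⟨B1, hB1⟩ : ∃ B1, 2 * B1 = -((-x ^ 2 + m * p * x) + (-y ^ 2 + m * p * y)) :=
    half_ex _
  obtain ⟨B2, hB2⟩ : ∃ B2, 16 * B2 * (P * Q * (P ^ 2 - Q ^ 2)) =
      -(2 * P * Q * ((-x ^ 2 + m * p * x) - (-y ^ 2 + m * p * y)) +
        (P ^ 2 - Q ^ 2) * (m * (x - y) * q)) :=
    div_ex _ _ 16 (mul_ne_zero (mul_ne_zero P0 Q0) PQ) (by norm_num)
  refine ⟨A, B1, B2, ?_⟩
  intro ε μ c δ hε hlim hδ ⟨C1, hC1, hc⟩ hc1 h1 h2 h3 h4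
  have hεe := BO.eps hε
  have hconj : ‖(starRingEnd ℂ) w‖ = 1 := by rw [RCLike.norm_conj, nw]
  obtain ⟨a1, a2⟩ := one hε m hodd A B1 B2 c (fun n => δ n * w)
    (fun n => by rw [norm_mul, hδ n, nw, one_mul]) C1 hC1 hc hc1 h1 h2
  obtain ⟨a3, a4⟩ := one hε m hodd A B1 B2 c (fun n => δ n * (starRingEnd ℂ) w)
    (fun n => by rw [norm_mul, hδ n, hconj, one_mul]) C1 hC1 hc hc1 h3 h4
  -- coordinates
  obtain ⟨X, hX⟩ : ∃ X : ℕ → ℝ, ∀ n, X n = (c n * (starRingEnd ℂ) (δ n)).re := ⟨_, fun _ => rfl⟩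
  obtain ⟨Y, hY⟩ : ∃ Y : ℕ → ℝ, ∀ n, Y n = (c n * (starRingEnd ℂ) (δ n)).im := ⟨_, fun _ => rfl⟩
  obtain ⟨Cc, hCc⟩ : ∃ Cc : ℕ → ℝ, ∀ n, Cc n = (δ n ^ m).re := ⟨_, fun _ => rfl⟩
  obtain ⟨Ss, hSs⟩ : ∃ Ss : ℕ → ℝ, ∀ n, Ss n = (δ n ^ m).im := ⟨_, fun _ => rfl⟩
  have hCS : ∀ n, Cc n ^ 2 + Ss n ^ 2 = 1 := by
    intro n
    have : normSq (δ n ^ m) = 1 := by rw [normSq_eq_norm_sq, norm_pow, hδ n]; norm_num
    rw [normSq_apply, ← hCc n, ← hSs n] at this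
    linarith
  have hCb : BO ε 0 Cc := BO.bdd 1 (by norm_num) fun n => by
    rw [abs_le]; constructor <;> nlinarith [hCS n, sq_nonneg (Ss n)]
  have hSb : BO ε 0 Ss := BO.bdd 1 (by norm_num) fun n => by
    rw [abs_le]; constructor <;> nlinarith [hCS n, sq_nonneg (Cc n)]
  have hdd : ∀ n, δ n * (starRingEnd ℂ) (δ n) = 1 := by
    intro n
    rw [mul_conj, normSq_eq_norm_sq, hδ n]; norm_num
  have hcn : ∀ n, c n = ⟨X n, Y n⟩ * δ n := by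
    intro n
    have : (⟨X n, Y n⟩ : ℂ) = c n * (starRingEnd ℂ) (δ n) := by
      apply Complex.ext
      · exact hX n
      · exact hY n
    rw [this]
    linear_combination (-c n) * hdd n
  have hdm : ∀ n, δ n ^ m = ⟨Cc n, Ss n⟩ := fun n => Complex.ext (hCc n).symm (hSs n).symm
  have hwm : w ^ m = ⟨P, Q⟩ := Complex.ext hP.symm hQ.symm
  have hwm' : (starRingEnd ℂ) w ^ m = ⟨P, -Q⟩ := by
    rw [← map_pow, hwm]
    apply Complex.ext <;> simp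
  have hw1 : w ^ (m - 1) = ⟨p, q⟩ := Complex.ext hp.symm hq.symm
  have hw1' : (starRingEnd ℂ) w ^ (m - 1) = ⟨p, -q⟩ := by
    rw [← map_pow, hw1]
    apply Complex.ext <;> simp
  have hww : w = ⟨cp, sp⟩ := Complex.ext hcp.symm hsp.symm
  have hdm1 : ∀ n, δ n ^ (m - 1) * δ n = δ n ^ m := by
    intro n
    rw [← pow_succ]
    congr 1
    have := hodd.pos
    omega
  have hN : ∀ n, normSq (c n) = X n ^ 2 + Y n ^ 2 := by
    intro n
    rw [hcn n, normSq_mul, normSq_eq_norm_sq (δ n), hδ n, normSq_apply]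
    ring
  -- the pieces for the two directions
  have b1 : ∀ n, (c n * (starRingEnd ℂ) (δ n * w)).re = X n * cp + Y n * sp := by
    intro n
    have : c n * (starRingEnd ℂ) (δ n * w) = ⟨X n, Y n⟩ * (starRingEnd ℂ) w := by
      conv_lhs => rw [hcn n, map_mul]
      linear_combination ((⟨X n, Y n⟩ : ℂ) * (starRingEnd ℂ) w) * hdd n
    rw [this, hww]
    simp
  have b2 : ∀ n, (c n * (starRingEnd ℂ) (δ n * (starRingEnd ℂ) w)).re = X n * cp - Y n * sp := by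
    intro n
    have : c n * (starRingEnd ℂ) (δ n * (starRingEnd ℂ) w) = ⟨X n, Y n⟩ * w := by
      conv_lhs => rw [hcn n, map_mul, conj_conj]
      linear_combination ((⟨X n, Y n⟩ : ℂ) * w) * hdd n
    rw [this, hww]
    simp
  have d1 : ∀ n, (δ n * w) ^ m = ⟨Cc n * P - Ss n * Q, Cc n * Q + Ss n * P⟩ := by
    intro n
    rw [mul_pow, hdm, hwm]
    apply Complex.ext <;> simp
  have d2 : ∀ n, (δ n * (starRingEnd ℂ) w) ^ m =
      ⟨Cc n * P + Ss n * Q, Ss n * P - Cc n * Q⟩ := by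
    intro n
    rw [mul_pow, hdm, hwm']
    apply Complex.ext <;> simp <;> ring
  have e1 : ∀ n, (δ n * w) ^ (2 * m) = ((δ n * w) ^ m) ^ 2 := fun n => by rw [mul_comm 2 m, pow_mul]
  have e1' : ∀ n, (δ n * w) ^ (4 * m) = (((δ n * w) ^ m) ^ 2) ^ 2 := fun n => by
    rw [← pow_mul, ← pow_mul]; congr 1; ring
  have e2 : ∀ n, (δ n * (starRingEnd ℂ) w) ^ (2 * m) = ((δ n * (starRingEnd ℂ) w) ^ m) ^ 2 :=
    fun n => by rw [mul_comm 2 m, pow_mul]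
  have e2' : ∀ n, (δ n * (starRingEnd ℂ) w) ^ (4 * m) =
      (((δ n * (starRingEnd ℂ) w) ^ m) ^ 2) ^ 2 := fun n => by
    rw [← pow_mul, ← pow_mul]; congr 1; ring
  have k1 : ∀ n, (m * (δ n * w) ^ (m - 1) * c n).re =
      m * ((X n * Cc n - Y n * Ss n) * p - (X n * Ss n + Y n * Cc n) * q) := by
    intro n
    have : (m : ℂ) * (δ n * w) ^ (m - 1) * c n =
        (m : ℂ) * (⟨Cc n, Ss n⟩ * ⟨p, q⟩ * ⟨X n, Y n⟩) := by
      rw [mul_pow, hw1, ← hdm n, ← hdm1 n]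
      conv_lhs => rw [hcn n]
      ring
    rw [this, ← ofReal_natCast, re_ofReal_mul]
    congr 1
    simp
    ring
  have k2 : ∀ n, (m * (δ n * (starRingEnd ℂ) w) ^ (m - 1) * c n).re =
      m * ((X n * Cc n - Y n * Ss n) * p + (X n * Ss n + Y n * Cc n) * q) := by
    intro n
    have : (m : ℂ) * (δ n * (starRingEnd ℂ) w) ^ (m - 1) * c n =
        (m : ℂ) * (⟨Cc n, Ss n⟩ * ⟨p, -q⟩ * ⟨X n, Y n⟩) := by
      rw [mul_pow, hw1', ← hdm n, ← hdm1 n]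
      conv_lhs => rw [hcn n]
      ring
    rw [this, ← ofReal_natCast, re_ofReal_mul]
    congr 1
    simp
    ring
  have sqre : ∀ a b : ℝ, ((⟨a, b⟩ : ℂ) ^ 2).re = a ^ 2 - b ^ 2 := fun a b => by simp [pow_two]
  have sqim : ∀ a b : ℝ, ((⟨a, b⟩ : ℂ) ^ 2).im = 2 * a * b := fun a b => by
    simp [pow_two]; ring
  have sqq : ∀ a b : ℝ, (((⟨a, b⟩ : ℂ) ^ 2) ^ 2).im = 2 * (a ^ 2 - b ^ 2) * (2 * a * b) := by
    intro a b
    have : ((⟨a, b⟩ : ℂ) ^ 2) = ⟨a ^ 2 - b ^ 2, 2 * a * b⟩ := Complex.ext (sqre a b) (sqim a b)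
    rw [this, sqim]
  -- the centre
  have hξ : BO ε 3 fun n => X n - ε n * (Cc n * x) := by
    refine ((a1.add a3).cmul (-(1 / (4 * cp)))).congr fun n => ?_
    rw [b1, b2, d1, d2]
    simp only
    rw [hx']
    field_simp
    ring
  have hυ : BO ε 3 fun n => Y n + ε n * (Ss n * y) := by
    refine ((a1.sub a3).cmul (-(1 / (4 * sp)))).congr fun n => ?_
    rw [b1, b2, d1, d2]
    simp only
    rw [hy']
    field_simp
    ring
  -- error terms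
  have hX1 : BO ε 1 X := by
    refine ((hξ.mono hε (by norm_num : 1 ≤ 3)).add
      ((hεe.mul (hCb.mul (BO.const x))))).congr fun n => by ring
  have hY1 : BO ε 1 Y := by
    refine ((hυ.mono hε (by norm_num : 1 ≤ 3)).sub
      ((hεe.mul (hSb.mul (BO.const y))))).congr fun n => by ring
  have herr1 : BO ε 4 fun n => -(X n ^ 2 + Y n ^ 2) +
      ε n ^ 2 * (Cc n ^ 2 * x ^ 2 + Ss n ^ 2 * y ^ 2) := by
    have t1 : BO ε 4 fun n => (X n - ε n * (Cc n * x)) * (X n + ε n * (Cc n * x)) :=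
      hξ.mul (hX1.add (hεe.mul (hCb.mul (BO.const x))))
    have t2 : BO ε 4 fun n => (Y n + ε n * (Ss n * y)) * (Y n - ε n * (Ss n * y)) :=
      hυ.mul (hY1.sub (hεe.mul (hSb.mul (BO.const y))))
    exact (t1.neg.sub t2).congr fun n => by ring
  have herr2 : BO ε 4 fun n => ε n * ((X n * Cc n - Y n * Ss n) -
      ε n * (Cc n ^ 2 * x + Ss n ^ 2 * y)) := by
    have t1 := hεe.mul ((hξ.mul hCb).sub (hυ.mul hSb))
    exact t1.congr fun n => by ring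
  have herr3 : BO ε 4 fun n => ε n * ((X n * Ss n + Y n * Cc n) -
      ε n * (Cc n * Ss n * (x - y))) := by
    have t1 := hεe.mul ((hξ.mul hSb).add (hυ.mul hCb))
    exact t1.congr fun n => by ring
  have hP0' : BO ε 0 fun n => 1 + ε n * (2 * (Cc n * P - Ss n * Q) * (Cc n * Q + Ss n * P)) :=
    (BO.const 1).add ((hεe.mul (((BO.const 2).mul ((hCb.mul (BO.const P)).sub
      (hSb.mul (BO.const Q)))).mul ((hCb.mul (BO.const Q)).add (hSb.mul (BO.const P))))).mono hε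
      (by norm_num))
  have hM0' : BO ε 0 fun n => 1 + ε n * (2 * (Cc n * P + Ss n * Q) * (Ss n * P - Cc n * Q)) :=
    (BO.const 1).add ((hεe.mul (((BO.const 2).mul ((hCb.mul (BO.const P)).add
      (hSb.mul (BO.const Q)))).mul ((hSb.mul (BO.const P)).sub (hCb.mul (BO.const Q))))).mono hε
      (by norm_num))
  have hEp : BO ε 4 fun n => (-(X n ^ 2 + Y n ^ 2) + ε n * (m * ((X n * Cc n - Y n * Ss n) * p -
      (X n * Ss n + Y n * Cc n) * q))) - ε n ^ 2 * ((Cc n ^ 2 * (-x ^ 2 + m * p * x) +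
        Ss n ^ 2 * (-y ^ 2 + m * p * y)) - m * (Cc n * Ss n) * (x - y) * q) := by
    refine ((herr1.add (herr2.cmul (m * p))).sub (herr3.cmul (m * q))).congr fun n => by ring
  have hEm : BO ε 4 fun n => (-(X n ^ 2 + Y n ^ 2) + ε n * (m * ((X n * Cc n - Y n * Ss n) * p +
      (X n * Ss n + Y n * Cc n) * q))) - ε n ^ 2 * ((Cc n ^ 2 * (-x ^ 2 + m * p * x) +
        Ss n ^ 2 * (-y ^ 2 + m * p * y)) + m * (Cc n * Ss n) * (x - y) * q) := by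
    refine ((herr1.add (herr2.cmul (m * p))).add (herr3.cmul (m * q))).congr fun n => by ring
  have hfin : BO ε (3 + 1) fun n => T * ε n ^ 3 := by
    have t1 : BO ε 4 fun n => (1 + ε n * (2 * (Cc n * P - Ss n * Q) * (Cc n * Q + Ss n * P))) *
        ((-(X n ^ 2 + Y n ^ 2) + ε n * (m * ((X n * Cc n - Y n * Ss n) * p -
      (X n * Ss n + Y n * Cc n) * q))) - ε n ^ 2 * ((Cc n ^ 2 * (-x ^ 2 + m * p * x) +
        Ss n ^ 2 * (-y ^ 2 + m * p * y)) - m * (Cc n * Ss n) * (x - y) * q)) := by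
      have := hP0'.mul hEp
      rwa [zero_add] at this
    have t2 : BO ε 4 fun n => (1 + ε n * (2 * (Cc n * P + Ss n * Q) * (Ss n * P - Cc n * Q))) *
        ((-(X n ^ 2 + Y n ^ 2) + ε n * (m * ((X n * Cc n - Y n * Ss n) * p +
      (X n * Ss n + Y n * Cc n) * q))) - ε n ^ 2 * ((Cc n ^ 2 * (-x ^ 2 + m * p * x) +
        Ss n ^ 2 * (-y ^ 2 + m * p * y)) + m * (Cc n * Ss n) * (x - y) * q)) := by
      have := hM0'.mul hEm
      rwa [zero_add] at this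
    refine (((a4.sub a2).sub t1).add t2).congr fun n => ?_
    have hal := alg (Cc n) (Ss n) P Q p q x y m A B1 B2 T (ε n) (hCS n) hA hB1 hB2 hT
    rw [hN, k1, k2, e1, e1', e2, e2', d1, d2, sqre, sqim, sqq, sqre, sqim, sqq]
    linear_combination (-(ε n) ^ 2) * hal
  exact BO.contra hε hlim hT0 hfin

end

end Pool.Agent.Y446.RT
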