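import Mathlib
import Pool.Agent.Y446.RT.Two

/-!
# Level rectangles, part 4: the function (helper446)
-/

set_option autoImplicit false

namespace Pool.Agent.Y446.RT

open Complex

noncomputable section

/-- a cutoff near the unit circle -/
def chi (τ : ℝ) (z : ℂ) : ℝ := max 0 (min 1 (2 - |normSq z - 1| / τ))

/-- the function on the plane -/
def gg (m : ℕ) (A B1 B2 ρ τ ε : ℝ) (z : ℂ) : ℝ :=
  max 0 (ρ ^ 2 - normSq z) + chi τ z * (FF m A B1 B2 ε z + (normSq z - 1))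

lemma gg_cont (m : ℕ) (A B1 B2 ρ τ ε : ℝ) : Continuous (gg m A B1 B2 ρ τ ε) := by
  unfold gg chi FF rr aa bb0 bb1
  have h1 : Continuous fun z : ℂ => normSq z := continuous_normSq
  have h2 : Continuous fun z : ℂ => z.re := continuous_re
  have h3 : Continuous fun z : ℂ => z.im := continuous_im
  fun_prop

lemma chi_nn (τ : ℝ) (z : ℂ) : 0 ≤ chi τ z := le_max_left _ _

lemma chi_le (τ : ℝ) (z : ℂ) : chi τ z ≤ 1 := max_le (by norm_num) (min_le_left _ _)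

lemma chi_zero (τ : ℝ) (hτ : 0 < τ) (z : ℂ) (h : 2 * τ ≤ |normSq z - 1|) : chi τ z = 0 := by
  unfold chi
  apply max_eq_left
  refine (min_le_right _ _).trans ?_
  have : 2 ≤ |normSq z - 1| / τ := by rwa [le_div_iff₀ hτ]
  linarith

lemma chi_one (τ : ℝ) (hτ : 0 < τ) (z : ℂ) (h : |normSq z - 1| ≤ τ) : chi τ z = 1 := by
  unfold chi
  have : |normSq z - 1| / τ ≤ 1 := by rwa [div_le_one hτ]
  rw [min_eq_left (by linarith)]
  norm_num

lemma pw_bd (z : ℂ) (h : ‖z‖ ≤ 2) (k : ℕ) : |(z ^ k).re| ≤ 2 ^ k ∧ |(z ^ k).im| ≤ 2 ^ k := by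
  have h1 : ‖z ^ k‖ ≤ 2 ^ k := by rw [norm_pow]; gcongr
  exact ⟨(abs_re_le_norm _).trans h1, (abs_im_le_norm _).trans h1⟩

lemma FF_bd (m : ℕ) (A B1 B2 : ℝ) : ∃ C0 : ℝ, 0 ≤ C0 ∧ ∀ (ε : ℝ) (z : ℂ), 0 < ε → ε ≤ 1 →
    |normSq z - 1| ≤ 1 / 2 → |FF m A B1 B2 ε z + (normSq z - 1)| ≤ C0 * ε := by
  refine ⟨2 ^ m + 2 ^ (2 * m) + 2 ^ (2 * m) * 2 ^ m + |A| * 2 ^ (2 * m) +
    (|B1| * 2 ^ (2 * m) + |B2| * 2 ^ (4 * m)), by positivity, ?_⟩
  intro ε z hε hε1 hz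
  have hzz := abs_le.1 hz
  have hn : ‖z‖ ≤ 2 := by
    have h1 : ‖z‖ ^ 2 ≤ 2 ^ 2 := by
      rw [← normSq_eq_norm_sq]; linarith
    exact le_of_sq_le_sq h1 (by norm_num)
  have ha := (pw_bd z hn m).1
  have hr := (pw_bd z hn (2 * m)).2
  have hb := (pw_bd z hn (2 * m)).1
  have hs := (pw_bd z hn (4 * m)).2
  have e : FF m A B1 B2 ε z + (normSq z - 1) = ε * ((z ^ m).re + -((z ^ (2 * m)).im *
      (normSq z - 1)) + (ε * ((z ^ (2 * m)).im * (z ^ m).re) + ε * (A * (z ^ (2 * m)).re) +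
      ε ^ 2 * (B1 * (z ^ (2 * m)).im + B2 * (z ^ (4 * m)).im))) := by
    unfold FF rr aa bb0 bb1; ring
  rw [e, abs_mul, abs_of_pos hε, mul_comm]
  apply mul_le_mul_of_nonneg_right _ hε.le
  have t1 : |(z ^ (2 * m)).im * (normSq z - 1)| ≤ 2 ^ (2 * m) := by
    rw [abs_mul]
    calc _ ≤ (2 ^ (2 * m) : ℝ) * 1 := mul_le_mul hr (by linarith) (abs_nonneg _) (by positivity)
      _ = _ := mul_one _
  have t2 : |ε * ((z ^ (2 * m)).im * (z ^ m).re)| ≤ 2 ^ (2 * m) * 2 ^ m := by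
    rw [abs_mul, abs_mul, abs_of_pos hε]
    calc _ ≤ 1 * ((2 : ℝ) ^ (2 * m) * 2 ^ m) := by gcongr
      _ = _ := one_mul _
  have t3 : |ε * (A * (z ^ (2 * m)).re)| ≤ |A| * 2 ^ (2 * m) := by
    rw [abs_mul, abs_mul, abs_of_pos hε]
    calc _ ≤ 1 * (|A| * (2 : ℝ) ^ (2 * m)) := by gcongr
      _ = _ := one_mul _
  have t4 : |ε ^ 2 * (B1 * (z ^ (2 * m)).im + B2 * (z ^ (4 * m)).im)| ≤
      |B1| * 2 ^ (2 * m) + |B2| * 2 ^ (4 * m) := by
    rw [abs_mul, abs_of_pos (by positivity : (0 : ℝ) < ε ^ 2)]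
    have h1 : |B1 * (z ^ (2 * m)).im + B2 * (z ^ (4 * m)).im| ≤
        |B1| * 2 ^ (2 * m) + |B2| * 2 ^ (4 * m) := by
      refine (abs_add_le _ _).trans ?_
      rw [abs_mul, abs_mul]
      gcongr
    have h2 : ε ^ 2 ≤ 1 := by nlinarith
    calc _ ≤ 1 * (|B1| * (2 : ℝ) ^ (2 * m) + |B2| * 2 ^ (4 * m)) := by gcongr
      _ = _ := one_mul _
  calc _ ≤ |(z ^ m).re + -((z ^ (2 * m)).im * (normSq z - 1))| +
        |ε * ((z ^ (2 * m)).im * (z ^ m).re) + ε * (A * (z ^ (2 * m)).re) +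
          ε ^ 2 * (B1 * (z ^ (2 * m)).im + B2 * (z ^ (4 * m)).im)| := abs_add_le _ _
    _ ≤ (|(z ^ m).re| + |-((z ^ (2 * m)).im * (normSq z - 1))|) +
        ((|ε * ((z ^ (2 * m)).im * (z ^ m).re)| + |ε * (A * (z ^ (2 * m)).re)|) +
          |ε ^ 2 * (B1 * (z ^ (2 * m)).im + B2 * (z ^ (4 * m)).im)|) := by
        gcongr
        · exact abs_add_le _ _
        · exact (abs_add_le _ _).trans (by gcongr; exact abs_add_le _ _)
    _ ≤ _ := by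
      rw [abs_neg]
      linarith

theorem exists_fun (m : ℕ) (w : ℂ) (h : NR m w) (ρ : ℝ) (hρ : 1 < ρ)
    (hNT : ∀ c δ : ℂ, ‖δ‖ = 1 → normSq c < ρ ^ 2 → ¬ (ρ ^ 2 ≤ normSq (c + δ * w) ∧
      ρ ^ 2 ≤ normSq (c - δ * w) ∧ ρ ^ 2 ≤ normSq (c + δ * (starRingEnd ℂ) w) ∧
      ρ ^ 2 ≤ normSq (c - δ * (starRingEnd ℂ) w))) :
    ∃ f : ℂ → ℝ, Continuous f ∧ (∀ z, 0 ≤ f z) ∧ (∀ z, ρ ^ 2 ≤ normSq z → f z = 0) ∧
      ∀ (c δ : ℂ) (lam : ℝ), ‖δ‖ = 1 → normSq c < ρ ^ 2 → ¬ (f (c + δ * w) = lam ∧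
        f (c - δ * w) = lam ∧ f (c + δ * (starRingEnd ℂ) w) = lam ∧
        f (c - δ * (starRingEnd ℂ) w) = lam) := by
  obtain ⟨A, B1, B2, hseq⟩ := two_seq m w h
  obtain ⟨C0, hC0, hbd⟩ := FF_bd m A B1 B2
  have hρ2 : 1 < ρ ^ 2 := by nlinarith
  obtain ⟨τ, hτ, hτ4, hτρ⟩ : ∃ τ : ℝ, 0 < τ ∧ τ ≤ 1 / 4 ∧ 1 + 4 * τ ≤ ρ ^ 2 := by
    refine ⟨min (1 / 4) ((ρ ^ 2 - 1) / 4), lt_min (by norm_num) (by linarith), min_le_left _ _, ?_⟩
    have := min_le_right (1 / 4) ((ρ ^ 2 - 1) / 4)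
    linarith
  have nw := h.nw
  have c0 := h.c0
  have s0 := h.s0
  have ac : 0 < |w.re| := abs_pos.2 c0
  have as : 0 < |w.im| := abs_pos.2 s0
  obtain ⟨C1, hC1⟩ : ∃ C1 : ℝ, C1 = C0 / 2 / |w.re| + C0 / 2 / |w.im| := ⟨_, rfl⟩
  have hC1n : 0 ≤ C1 := by rw [hC1]; positivity
  obtain ⟨εm, hεm⟩ : ∃ εm : ℝ, εm = τ / (C1 ^ 2 + C0 + C1 + 1) := ⟨_, rfl⟩
  have hεm0 : 0 < εm := by rw [hεm]; positivity
  have hεmτ : εm * (C1 ^ 2 + C0 + C1 + 1) = τ := by rw [hεm]; field_simp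
  -- properties of the function
  have hclose : ∀ (ε : ℝ) (z : ℂ), 0 < ε → ε ≤ 1 →
      |gg m A B1 B2 ρ τ ε z - max 0 (ρ ^ 2 - normSq z)| ≤ C0 * ε := by
    intro ε z hε hε1
    have e : gg m A B1 B2 ρ τ ε z - max 0 (ρ ^ 2 - normSq z) =
        chi τ z * (FF m A B1 B2 ε z + (normSq z - 1)) := by unfold gg; ring
    rw [e]
    by_cases hz : |normSq z - 1| ≤ 1 / 2
    · rw [abs_mul, abs_of_nonneg (chi_nn τ z)]
      calc _ ≤ 1 * (C0 * ε) := mul_le_mul (chi_le τ z) (hbd ε z hε hε1 hz) (abs_nonneg _)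
            (by norm_num)
        _ = _ := one_mul _
    · rw [chi_zero τ hτ z (by push Not at hz; linarith), zero_mul, abs_zero]
      positivity
  have hzero : ∀ (ε : ℝ) (z : ℂ), ρ ^ 2 ≤ normSq z → gg m A B1 B2 ρ τ ε z = 0 := by
    intro ε z hz
    unfold gg
    rw [chi_zero τ hτ z (by rw [abs_of_pos (by linarith)]; linarith), max_eq_left (by linarith)]
    ring
  have hpos : ∀ (ε : ℝ) (z : ℂ), 0 < ε → ε ≤ 1 → C0 * ε ≤ τ → normSq z < ρ ^ 2 →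
      0 < gg m A B1 B2 ρ τ ε z := by
    intro ε z hε hε1 hετ hz
    by_cases h1 : 2 * τ ≤ |normSq z - 1|
    · unfold gg
      rw [chi_zero τ hτ z h1, max_eq_right (by linarith)]
      linarith
    · have h2 := (abs_le.mp (hclose ε z hε hε1)).1
      rw [max_eq_right (by linarith)] at h2
      push Not at h1
      have := (abs_lt.mp h1).2
      linarith
  -- the reduction to the unit circle
  have hloc : ∀ (ε : ℝ) (c δ : ℂ) (lam : ℝ), 0 < ε → ε ≤ εm → ‖δ‖ = 1 → normSq c < ρ ^ 2 →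
      gg m A B1 B2 ρ τ ε (c + δ * w) = lam → gg m A B1 B2 ρ τ ε (c - δ * w) = lam →
      gg m A B1 B2 ρ τ ε (c + δ * (starRingEnd ℂ) w) = lam →
      gg m A B1 B2 ρ τ ε (c - δ * (starRingEnd ℂ) w) = lam →
      ‖c‖ ≤ C1 * ε ∧ ‖c‖ ≤ 1 ∧ FF m A B1 B2 ε (c + δ * w) = lam - (ρ ^ 2 - 1) ∧
      FF m A B1 B2 ε (c - δ * w) = lam - (ρ ^ 2 - 1) ∧
      FF m A B1 B2 ε (c + δ * (starRingEnd ℂ) w) = lam - (ρ ^ 2 - 1) ∧
      FF m A B1 B2 ε (c - δ * (starRingEnd ℂ) w) = lam - (ρ ^ 2 - 1) := by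
    intro ε c δ lam hε hεle hδ hc h1 h2 h3 h4
    have q1 : C1 ^ 2 * ε + C0 * ε + C1 * ε + ε ≤ τ := by
      calc _ = ε * (C1 ^ 2 + C0 + C1 + 1) := by ring
        _ ≤ εm * (C1 ^ 2 + C0 + C1 + 1) := by gcongr
        _ = τ := hεmτ
    have hCe : 0 ≤ C1 * ε := by positivity
    have hCe0 : 0 ≤ C0 * ε := by positivity
    have hCe2 : 0 ≤ C1 ^ 2 * ε := by positivity
    have hε1 : ε ≤ 1 := by linarith
    have hετ : C0 * ε ≤ τ := by linarith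
    have q2 : C1 ^ 2 * ε + C0 * ε ≤ τ := by linarith
    have nd : ∀ v : ℂ, ‖v‖ = 1 → ‖δ * v‖ = 1 := fun v hv => by rw [norm_mul, hδ, hv, one_mul]
    have nwc : ‖(starRingEnd ℂ) w‖ = 1 := by rw [RCLike.norm_conj, nw]
    have hlam : 0 < lam := by
      by_contra hlam
      push Not at hlam
      have q : ∀ z : ℂ, gg m A B1 B2 ρ τ ε z = lam → ρ ^ 2 ≤ normSq z := by
        intro z hz
        by_contra hh
        push Not at hh
        have := hpos ε z hε hε1 hετ hh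
        linarith
      exact hNT c δ hδ hc ⟨q _ h1, q _ h2, q _ h3, q _ h4⟩
    have q : ∀ z : ℂ, gg m A B1 B2 ρ τ ε z = lam →
        normSq z < ρ ^ 2 ∧ |lam - (ρ ^ 2 - normSq z)| ≤ C0 * ε := by
      intro z hz
      have h5 : normSq z < ρ ^ 2 := by
        by_contra hh
        push Not at hh
        have := hzero ε z hh
        linarith
      refine ⟨h5, ?_⟩
      have h6 := hclose ε z hε hε1
      rwa [hz, max_eq_right (by linarith)] at h6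
    have dir : ∀ v : ℂ, ‖v‖ = 1 → gg m A B1 B2 ρ τ ε (c + δ * v) = lam →
        gg m A B1 B2 ρ τ ε (c - δ * v) = lam → |(c * (starRingEnd ℂ) (δ * v)).re| ≤ C0 * ε / 2 := by
      intro v hv e1 e2
      have p1 := abs_le.1 (q _ e1).2
      have p2 := abs_le.1 (q _ e2).2
      have p3 := nsq_add c (δ * v) (nd v hv)
      have p4 := nsq_sub c (δ * v) (nd v hv)
      rw [abs_le]
      constructor <;> linarith [p1.1, p1.2, p2.1, p2.2]
    have r1 := dir w nw h1 h2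
    have r2 := dir _ nwc h3 h4
    obtain ⟨D, hD⟩ : ∃ D, D = c * (starRingEnd ℂ) δ := ⟨_, rfl⟩
    have s1 : (c * (starRingEnd ℂ) (δ * w)).re = D.re * w.re + D.im * w.im := by
      rw [map_mul, ← mul_assoc, ← hD, mul_re, conj_re, conj_im]; ring
    have s2 : (c * (starRingEnd ℂ) (δ * (starRingEnd ℂ) w)).re = D.re * w.re - D.im * w.im := by
      rw [map_mul, conj_conj, ← mul_assoc, ← hD, mul_re]
    have r1' := abs_le.1 r1
    have r2' := abs_le.1 r2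
    rw [s1] at r1'
    rw [s2] at r2'
    have x1 : |D.re| ≤ C0 / 2 / |w.re| * ε := by
      have : |D.re| * |w.re| ≤ C0 / 2 * ε := by
        rw [← abs_mul, abs_le]
        constructor <;> linarith [r1'.1, r1'.2, r2'.1, r2'.2]
      rw [div_mul_eq_mul_div, le_div_iff₀ ac]
      exact this
    have x2 : |D.im| ≤ C0 / 2 / |w.im| * ε := by
      have : |D.im| * |w.im| ≤ C0 / 2 * ε := by
        rw [← abs_mul, abs_le]
        constructor <;> linarith [r1'.1, r1'.2, r2'.1, r2'.2]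
      rw [div_mul_eq_mul_div, le_div_iff₀ as]
      exact this
    have hcD : ‖c‖ = ‖D‖ := by rw [hD, norm_mul, RCLike.norm_conj, hδ, mul_one]
    have hcn : ‖c‖ ≤ C1 * ε := by
      rw [hcD]
      calc ‖D‖ ≤ |D.re| + |D.im| := norm_le_abs_re_add_abs_im D
        _ ≤ C0 / 2 / |w.re| * ε + C0 / 2 / |w.im| * ε := add_le_add x1 x2
        _ = C1 * ε := by rw [hC1]; ring
    have hcn1 : ‖c‖ ≤ 1 := by linarith
    have hcsq : normSq c ≤ C1 ^ 2 * ε := by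
      rw [normSq_eq_norm_sq]
      calc ‖c‖ ^ 2 ≤ (C1 * ε) ^ 2 := by gcongr
        _ = C1 ^ 2 * ε * ε := by ring
        _ ≤ C1 ^ 2 * ε * 1 := by gcongr
        _ = _ := mul_one _
    have hcs0 := normSq_nonneg c
    have fin : ∀ z : ℂ, gg m A B1 B2 ρ τ ε z = lam → |normSq z - 1| ≤ τ →
        FF m A B1 B2 ε z = lam - (ρ ^ 2 - 1) := by
      intro z hz hz'
      have h7 := abs_le.1 hz'
      unfold gg at hz
      rw [chi_one τ hτ z hz', max_eq_right (by linarith)] at hz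
      linarith
    have near : ∀ v : ℂ, ‖v‖ = 1 → |(c * (starRingEnd ℂ) (δ * v)).re| ≤ C0 * ε / 2 →
        |normSq (c + δ * v) - 1| ≤ τ ∧ |normSq (c - δ * v) - 1| ≤ τ := by
      intro v hv hr
      have h8 := abs_le.1 hr
      rw [nsq_add c (δ * v) (nd v hv), nsq_sub c (δ * v) (nd v hv), abs_le, abs_le]
      obtain ⟨h9, h10⟩ := h8
      clear q dir r1 r2 s1 s2 r1' r2' x1 x2 fin h1 h2 h3 h4 hclose hzero hpos hseq hbd hNT
      refine ⟨⟨?_, ?_⟩, ?_, ?_⟩ <;> linarith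
    exact ⟨hcn, hcn1, fin _ h1 (near w nw r1).1, fin _ h2 (near w nw r1).2,
      fin _ h3 (near _ nwc r2).1, fin _ h4 (near _ nwc r2).2⟩
  -- compactness
  by_contra hno
  push Not at hno
  have hseq0 : ∀ n : ℕ, 0 < εm / ((n : ℝ) + 1) ∧ εm / ((n : ℝ) + 1) ≤ εm := by
    intro n
    have hn : (0 : ℝ) ≤ n := Nat.cast_nonneg n
    exact ⟨by positivity, div_le_self hεm0.le (by linarith)⟩
  have hεmτ' : C1 ^ 2 * εm + C0 * εm + C1 * εm + εm = τ := by rw [← hεmτ]; ring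
  have hu1 : 0 ≤ C1 ^ 2 * εm := by positivity
  have hu2 : 0 ≤ C0 * εm := by positivity
  have hu3 : 0 ≤ C1 * εm := by positivity
  have hεm1 : εm ≤ 1 := by linarith
  have hall : ∀ n : ℕ, ∃ (c δ : ℂ) (lam : ℝ), ‖δ‖ = 1 ∧ normSq c < ρ ^ 2 ∧
      (gg m A B1 B2 ρ τ (εm / ((n : ℝ) + 1)) (c + δ * w) = lam ∧
      gg m A B1 B2 ρ τ (εm / ((n : ℝ) + 1)) (c - δ * w) = lam ∧
      gg m A B1 B2 ρ τ (εm / ((n : ℝ) + 1)) (c + δ * (starRingEnd ℂ) w) = lam ∧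
      gg m A B1 B2 ρ τ (εm / ((n : ℝ) + 1)) (c - δ * (starRingEnd ℂ) w) = lam) := by
    intro n
    obtain ⟨hn1, hn2⟩ := hseq0 n
    apply hno (gg m A B1 B2 ρ τ (εm / ((n : ℝ) + 1))) (gg_cont _ _ _ _ _ _ _)
    · intro z
      rcases lt_or_ge (normSq z) (ρ ^ 2) with hz | hz
      · refine (hpos _ z hn1 (by linarith) ?_ hz).le
        have : C0 * (εm / ((n : ℝ) + 1)) ≤ C0 * εm := by gcongr
        linarith
      · exact (hzero _ z hz).ge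
    · intro z hz
      exact hzero _ z hz
  choose c δ lam hδ hcρ hl using hall
  have hL := fun n : ℕ => hloc (εm / ((n : ℝ) + 1)) (c n) (δ n) (lam n) (hseq0 n).1 (hseq0 n).2
    (hδ n) (hcρ n) (hl n).1 (hl n).2.1 (hl n).2.2.1 (hl n).2.2.2
  apply hseq (fun n : ℕ => εm / ((n : ℝ) + 1)) (fun n => lam n - (ρ ^ 2 - 1)) c δ
  · exact fun n => ⟨(hseq0 n).1, (hseq0 n).2.trans hεm1⟩
  · intro η hη
    obtain ⟨n, hn⟩ := exists_nat_gt (εm / η)
    refine ⟨n, ?_⟩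
    have hn0 : (0 : ℝ) ≤ n := Nat.cast_nonneg n
    rw [div_lt_iff₀ hη] at hn
    rw [div_lt_iff₀ (by positivity), mul_add, mul_one, mul_comm]
    linarith
  · exact hδ
  · exact ⟨C1, hC1n, fun n => (hL n).1⟩
  · exact fun n => (hL n).2.1
  · exact fun n => (hL n).2.2.1
  · exact fun n => (hL n).2.2.2.1
  · exact fun n => (hL n).2.2.2.2.1
  · exact fun n => (hL n).2.2.2.2.2

end

end Pool.Agent.Y446.RT
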