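import Mathlib
import Pool.Agent.Y446.RT.Fun

/-!
# Level rectangles, part 5: the half angle and the trivial rectangles (helper446)
-/

set_option autoImplicit false

namespace Pool.Agent.Y446.RT

open Complex

noncomputable section

lemma w3re (c s : ℝ) : ((⟨c, s⟩ : ℂ) ^ 3).re = c * (c ^ 2 - 3 * s ^ 2) := by
  simp [pow_succ]; ring

lemma w3im (c s : ℝ) : ((⟨c, s⟩ : ℂ) ^ 3).im = s * (3 * c ^ 2 - s ^ 2) := by
  simp [pow_succ]; ring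

lemma w2re (c s : ℝ) : ((⟨c, s⟩ : ℂ) ^ 2).re = c ^ 2 - s ^ 2 := by
  simp [pow_succ]

lemma w2im (c s : ℝ) : ((⟨c, s⟩ : ℂ) ^ 2).im = 2 * c * s := by
  simp [pow_succ]; ring

lemma w5re (c s : ℝ) :
    ((⟨c, s⟩ : ℂ) ^ 5).re = c * (c ^ 4 - 10 * c ^ 2 * s ^ 2 + 5 * s ^ 4) := by
  simp [pow_succ]; ring

lemma w5im (c s : ℝ) :
    ((⟨c, s⟩ : ℂ) ^ 5).im = s * (5 * c ^ 4 - 10 * c ^ 2 * s ^ 2 + s ^ 4) := by
  simp [pow_succ]; ring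

lemma w4re (c s : ℝ) : ((⟨c, s⟩ : ℂ) ^ 4).re = c ^ 4 - 6 * c ^ 2 * s ^ 2 + s ^ 4 := by
  simp [pow_succ]; ring

lemma w4im (c s : ℝ) : ((⟨c, s⟩ : ℂ) ^ 4).im = 4 * c * s * (c ^ 2 - s ^ 2) := by
  simp [pow_succ]; ring

lemma nrm (c s : ℝ) (hcs : c ^ 2 + s ^ 2 = 1) : ‖(⟨c, s⟩ : ℂ)‖ = 1 := by
  have h1 : normSq (⟨c, s⟩ : ℂ) = 1 := by rw [normSq_mk]; linarith
  rw [normSq_eq_norm_sq] at h1
  have h0 := norm_nonneg (⟨c, s⟩ : ℂ)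
  nlinarith

lemma fact (P Q p q x y mm : ℝ) :
    2 * P * Q * ((-x ^ 2 + mm * p * x) - (-y ^ 2 + mm * p * y)) -
      (P ^ 2 - Q ^ 2) * (mm * (x - y) * q) =
    (x - y) * (2 * (P * Q) * (mm * p - (x + y)) - (P ^ 2 - Q ^ 2) * mm * q) := by ring

/-- Every non-square rectangle with side ratio different from `√3` is nonresonant. -/
theorem exists_NR (c s : ℝ) (hc : 0 < c) (hs : 0 < s) (hcs : c ^ 2 + s ^ 2 = 1)
    (h1 : c ^ 2 ≠ s ^ 2) (h2 : c ^ 2 ≠ 3 * s ^ 2) (h3 : s ^ 2 ≠ 3 * c ^ 2) :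
    ∃ m : ℕ, NR m ⟨c, s⟩ := by
  have k0 : c ^ 2 - s ^ 2 ≠ 0 := sub_ne_zero.2 h1
  by_cases hE : c ^ 4 - 14 * c ^ 2 * s ^ 2 + s ^ 4 = 0
  · -- angle 30 degrees, the fifth harmonic
    have e1 : c ^ 2 * s ^ 2 = 1 / 16 := by
      have : (c ^ 2 + s ^ 2) ^ 2 = 1 := by rw [hcs]; norm_num
      nlinarith
    have e2 : c * s = 1 / 4 := by
      have h4 : (c * s - 1 / 4) * (c * s + 1 / 4) = 0 := by nlinarith
      rcases mul_eq_zero.1 h4 with h | h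
      · linarith
      · have := mul_pos hc hs
        linarith
    have e3 : c ^ 4 + s ^ 4 = 7 / 8 := by nlinarith
    have e4 : (c ^ 2 - s ^ 2) ^ 2 = 3 / 4 := by nlinarith
    have hP : c ^ 4 - 10 * c ^ 2 * s ^ 2 + 5 * s ^ 4 = 1 / 4 + 4 * s ^ 4 := by nlinarith
    have hQ : 5 * c ^ 4 - 10 * c ^ 2 * s ^ 2 + s ^ 4 = 1 / 4 + 4 * c ^ 4 := by nlinarith
    have hPQ : (c * (c ^ 4 - 10 * c ^ 2 * s ^ 2 + 5 * s ^ 4)) *
        (s * (5 * c ^ 4 - 10 * c ^ 2 * s ^ 2 + s ^ 4)) = 1 / 4 := by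
      rw [hP, hQ]
      have : c ^ 4 * s ^ 4 = 1 / 256 := by
        have : c ^ 4 * s ^ 4 = (c ^ 2 * s ^ 2) ^ 2 := by ring
        rw [this, e1]; norm_num
      calc c * (1 / 4 + 4 * s ^ 4) * (s * (1 / 4 + 4 * c ^ 4)) =
          (c * s) * (1 / 16 + (c ^ 4 + s ^ 4) + 16 * (c ^ 4 * s ^ 4)) := by ring
        _ = 1 / 4 := by rw [e2, e3, this]; norm_num
    have hD : (c * (c ^ 4 - 10 * c ^ 2 * s ^ 2 + 5 * s ^ 4)) ^ 2 -
        (s * (5 * c ^ 4 - 10 * c ^ 2 * s ^ 2 + s ^ 4)) ^ 2 = -(c ^ 2 - s ^ 2) := by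
      have : (c * (c ^ 4 - 10 * c ^ 2 * s ^ 2 + 5 * s ^ 4)) ^ 2 -
        (s * (5 * c ^ 4 - 10 * c ^ 2 * s ^ 2 + s ^ 4)) ^ 2 =
        (c ^ 2 - s ^ 2) * (((c ^ 2 - s ^ 2) ^ 2) ^ 2 - 10 * (c ^ 2 - s ^ 2) ^ 2 *
          (4 * (c ^ 2 * s ^ 2)) + 5 * (4 * (c ^ 2 * s ^ 2)) ^ 2) := by ring
      rw [this, e4, e1]
      ring
    refine ⟨5, ⟨by decide, nrm c s hcs, hc.ne', hs.ne', ?_, ?_, ?_, ?_⟩⟩
    · rw [w5re, hP]
      positivity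
    · rw [w5im, hQ]
      positivity
    · rw [w5re, w5im, hD]
      exact neg_ne_zero.2 k0
    · have h5 : 5 - 1 = 4 := rfl
      rw [h5, w5re, w5im, w4re, w4im, fact, hPQ, hD]
      have x1 : c * (c ^ 4 - 10 * c ^ 2 * s ^ 2 + 5 * s ^ 4) / (2 * c) =
          (c ^ 4 - 10 * c ^ 2 * s ^ 2 + 5 * s ^ 4) / 2 := by field_simp
      have x2 : s * (5 * c ^ 4 - 10 * c ^ 2 * s ^ 2 + s ^ 4) / (2 * s) =
          (5 * c ^ 4 - 10 * c ^ 2 * s ^ 2 + s ^ 4) / 2 := by field_simp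
      have x3 : (c ^ 4 - 10 * c ^ 2 * s ^ 2 + 5 * s ^ 4) / 2 -
          (5 * c ^ 4 - 10 * c ^ 2 * s ^ 2 + s ^ 4) / 2 = -2 * (c ^ 2 - s ^ 2) := by
        linear_combination (-2 * (c ^ 2 - s ^ 2)) * hcs
      have x4 : (c ^ 4 - 10 * c ^ 2 * s ^ 2 + 5 * s ^ 4) / 2 +
          (5 * c ^ 4 - 10 * c ^ 2 * s ^ 2 + s ^ 4) / 2 = 2 := by
        linear_combination 3 * e3 - 10 * e1
      have x5 : c ^ 4 - 6 * c ^ 2 * s ^ 2 + s ^ 4 = 1 / 2 := by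
        linear_combination e3 - 6 * e1
      have x6 : 4 * c * s * (c ^ 2 - s ^ 2) = c ^ 2 - s ^ 2 := by
        linear_combination 4 * (c ^ 2 - s ^ 2) * e2
      rw [x1, x2, x3, x4, x5, x6]
      have x7 : -2 * (c ^ 2 - s ^ 2) * (2 * (1 / 4) * (((5 : ℕ) : ℝ) * (1 / 2) - 2) -
          -(c ^ 2 - s ^ 2) * ((5 : ℕ) : ℝ) * (c ^ 2 - s ^ 2)) = -8 * (c ^ 2 - s ^ 2) := by
        push_cast
        linear_combination (-10 * (c ^ 2 - s ^ 2)) * e4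
      rw [x7]
      exact mul_ne_zero (by norm_num) k0
  · -- the third harmonic
    refine ⟨3, ⟨by decide, nrm c s hcs, hc.ne', hs.ne', ?_, ?_, ?_, ?_⟩⟩
    · rw [w3re]
      exact mul_ne_zero hc.ne' (sub_ne_zero.2 h2)
    · rw [w3im]
      exact mul_ne_zero hs.ne' (sub_ne_zero.2 (Ne.symm h3))
    · rw [w3re, w3im]
      have : (c * (c ^ 2 - 3 * s ^ 2)) ^ 2 - (s * (3 * c ^ 2 - s ^ 2)) ^ 2 =
          (c ^ 2 - s ^ 2) * (c ^ 4 - 14 * c ^ 2 * s ^ 2 + s ^ 4) := by ring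
      rw [this]
      exact mul_ne_zero k0 hE
    · have h5 : 3 - 1 = 2 := rfl
      rw [h5, w3re, w3im, w2re, w2im, fact]
      have x1 : c * (c ^ 2 - 3 * s ^ 2) / (2 * c) = (c ^ 2 - 3 * s ^ 2) / 2 := by field_simp
      have x2 : s * (3 * c ^ 2 - s ^ 2) / (2 * s) = (3 * c ^ 2 - s ^ 2) / 2 := by field_simp
      rw [x1, x2]
      have x3 : (c ^ 2 - 3 * s ^ 2) / 2 - (3 * c ^ 2 - s ^ 2) / 2 = -1 := by
        linear_combination -hcs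
      rw [x3]
      have x7 : -1 * (2 * (c * (c ^ 2 - 3 * s ^ 2) * (s * (3 * c ^ 2 - s ^ 2))) *
          (((3 : ℕ) : ℝ) * (c ^ 2 - s ^ 2) - ((c ^ 2 - 3 * s ^ 2) / 2 + (3 * c ^ 2 - s ^ 2) / 2)) -
          ((c * (c ^ 2 - 3 * s ^ 2)) ^ 2 - (s * (3 * c ^ 2 - s ^ 2)) ^ 2) * ((3 : ℕ) : ℝ) *
            (2 * c * s)) = -64 * (c ^ 3 * s ^ 3) * (c ^ 2 - s ^ 2) := by
        push_cast
        ring
      rw [x7]
      exact mul_ne_zero (mul_ne_zero (by norm_num) (by positivity)) k0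

/-- If the disc is large there is no rectangle with centre in the disc and vertices outside. -/
theorem nontriv (c s ρ : ℝ) (hc : 0 < c) (hs : 0 < s) (hρ : 1 < ρ) (h1 : 1 ≤ 2 * ρ * c)
    (h2 : 1 ≤ 2 * ρ * s) (z δ : ℂ) (hδ : ‖δ‖ = 1) (hz : normSq z < ρ ^ 2)
    (hcs : c ^ 2 + s ^ 2 = 1) :
    ¬ (ρ ^ 2 ≤ normSq (z + δ * ⟨c, s⟩) ∧ ρ ^ 2 ≤ normSq (z - δ * ⟨c, s⟩) ∧
      ρ ^ 2 ≤ normSq (z + δ * (starRingEnd ℂ) ⟨c, s⟩) ∧
      ρ ^ 2 ≤ normSq (z - δ * (starRingEnd ℂ) ⟨c, s⟩)) := by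
  rintro ⟨a1, a2, a3, a4⟩
  have nw := nrm c s hcs
  have n1 : ‖δ * (⟨c, s⟩ : ℂ)‖ = 1 := by rw [norm_mul, hδ, nw, one_mul]
  have n2 : ‖δ * (starRingEnd ℂ) (⟨c, s⟩ : ℂ)‖ = 1 := by
    rw [norm_mul, hδ, RCLike.norm_conj, nw, one_mul]
  obtain ⟨D, hD⟩ : ∃ D, D = z * (starRingEnd ℂ) δ := ⟨_, rfl⟩
  have s1 : (z * (starRingEnd ℂ) (δ * ⟨c, s⟩)).re = D.re * c + D.im * s := by
    rw [map_mul, ← mul_assoc, ← hD, mul_re, conj_re, conj_im]; ring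
  have s2 : (z * (starRingEnd ℂ) (δ * (starRingEnd ℂ) ⟨c, s⟩)).re = D.re * c - D.im * s := by
    rw [map_mul, conj_conj, ← mul_assoc, ← hD, mul_re]
  have b1 := nsq_add z _ n1
  have b2 := nsq_sub z _ n1
  have b3 := nsq_add z _ n2
  have b4 := nsq_sub z _ n2
  rw [s1] at b1 b2
  rw [s2] at b3 b4
  have hzD : normSq z = D.re ^ 2 + D.im ^ 2 := by
    have : normSq D = normSq z := by
      rw [hD, normSq_mul, normSq_conj, normSq_eq_norm_sq δ, hδ]; ring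
    rw [← this, normSq_apply]; ring
  obtain ⟨t, ht0, ht⟩ : ∃ t : ℝ, 0 ≤ t ∧ t ^ 2 = normSq z :=
    ⟨√(normSq z), Real.sqrt_nonneg _, Real.sq_sqrt (normSq_nonneg z)⟩
  have htρ : t < ρ := by
    by_contra hh
    push Not at hh
    nlinarith
  -- the nearest vertex
  obtain ⟨h, hh0, hhc, hhs, hhρ⟩ : ∃ h : ℝ, 0 < h ∧ h ≤ c ∧ h ≤ s ∧ 1 ≤ 2 * ρ * h := by
    refine ⟨min c s, lt_min hc hs, min_le_left _ _, min_le_right _ _, ?_⟩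
    rcases min_choice c s with e | e <;> rw [e] <;> assumption
  have hm : t ≤ |D.re| + |D.im| := by
    have h0 : 0 ≤ |D.re| + |D.im| := by positivity
    refine le_of_sq_le_sq ?_ h0
    rw [ht, hzD]
    have e1 := sq_abs D.re
    have e2 := sq_abs D.im
    have e3 : 0 ≤ |D.re| * |D.im| := by positivity
    nlinarith
  have hmain : ρ ^ 2 ≤ normSq z + 1 - 2 * (|D.re| * c + |D.im| * s) := by
    rcases abs_cases D.re with ⟨e, _⟩ | ⟨e, _⟩ <;> rcases abs_cases D.im with ⟨e', _⟩ | ⟨e', _⟩ <;>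
      rw [e, e'] <;> linarith
  have hlow : h * t ≤ |D.re| * c + |D.im| * s := by
    have e1 : h * t ≤ h * (|D.re| + |D.im|) := by gcongr
    have e2 : |D.re| * h ≤ |D.re| * c := by gcongr
    have e3 : |D.im| * h ≤ |D.im| * s := by gcongr
    linarith
  rw [← ht] at hmain
  rcases le_or_gt t (2 * h) with hcase | hcase
  · have : t * t ≤ 2 * h * t := by gcongr
    nlinarith
  · have : (ρ - t) * (t + ρ - 2 * h) > 0 := mul_pos (by linarith) (by linarith)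
    nlinarith

end

end Pool.Agent.Y446.RT
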