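import Mathlib
import Pool.Agent.Y446.RT.Ang

/-!
# Level rectangles, part 6: tables over circles (helper446)
-/

set_option autoImplicit false

namespace Pool.Agent.Y446.RT

open Complex

/-- The Euclidean plane. -/
abbrev Plane := EuclideanSpace ℝ (Fin 2)

/-- The boundary of the convex body `K` is good for the rectangular table with side lengths `a` and
`b`: for every continuous `f ≥ 0` on the plane which vanishes outside of `K`, some level set of `f`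
contains the four vertices of a congruent copy of the rectangle whose centre is an interior point
of `K`. The isometry `g` carries the rectangle with the vertices `(± a/2, ± b/2)` to the copy. -/
def IsGood (K : Set Plane) (a b : ℝ) : Prop :=
  ∀ f : Plane → ℝ, Continuous f → (∀ x, 0 ≤ f x) → (∀ x, x ∉ K → f x = 0) →
    ∃ (g : Plane ≃ᵢ Plane) (lam : ℝ), g 0 ∈ interior K ∧
      f (g !₂[a / 2, b / 2]) = lam ∧ f (g !₂[-(a / 2), b / 2]) = lam ∧
      f (g !₂[-(a / 2), -(b / 2)]) = lam ∧ f (g !₂[a / 2, -(b / 2)]) = lam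

lemma nrm_pt (x y : ℝ) : ‖(!₂[x, y] : Plane)‖ ^ 2 = x ^ 2 + y ^ 2 := by
  rw [EuclideanSpace.norm_sq_eq, Fin.sum_univ_two]
  simp

lemma zero_of (R : ℝ) (hR : 0 < R) (f : Plane → ℝ) (hf : Continuous f)
    (h0 : ∀ x, x ∉ Metric.closedBall (0 : Plane) R → f x = 0) (x : Plane) (hx : R ≤ ‖x‖) :
    f x = 0 := by
  have ht : Filter.Tendsto (fun n : ℕ => f ((1 + 1 / ((n : ℝ) + 1)) • x)) Filter.atTop
      (nhds (f ((1 + 0 : ℝ) • x))) := by
    refine (hf.tendsto _).comp ?_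
    exact ((tendsto_const_nhds (x := (1 : ℝ))).add
      tendsto_one_div_add_atTop_nhds_zero_nat).smul_const x
  have hc : (fun n : ℕ => f ((1 + 1 / ((n : ℝ) + 1)) • x)) = fun _ => (0 : ℝ) := by
    funext n
    apply h0
    rw [Metric.mem_closedBall, dist_zero_right, norm_smul, Real.norm_eq_abs, abs_of_pos (by positivity)]
    have : 0 < 1 / ((n : ℝ) + 1) := by positivity
    push Not
    nlinarith
  rw [hc, add_zero, one_smul] at ht
  exact tendsto_nhds_unique ht tendsto_const_nhds |>.symm ▸ rfl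

/-- copies far from the centre, or too large -/
lemma good_of (R a b t₁ t₂ : ℝ) (hR : 0 < R) (ht : t₁ ^ 2 + t₂ ^ 2 < R ^ 2)
    (h1 : R ^ 2 ≤ (t₁ + a / 2) ^ 2 + (t₂ + b / 2) ^ 2)
    (h2 : R ^ 2 ≤ (t₁ - a / 2) ^ 2 + (t₂ + b / 2) ^ 2)
    (h3 : R ^ 2 ≤ (t₁ - a / 2) ^ 2 + (t₂ - b / 2) ^ 2)
    (h4 : R ^ 2 ≤ (t₁ + a / 2) ^ 2 + (t₂ - b / 2) ^ 2) :
    IsGood (Metric.closedBall 0 R) a b := by
  intro f hf _ h0
  have hz : ∀ x y : ℝ, R ^ 2 ≤ x ^ 2 + y ^ 2 → f (!₂[x, y] : Plane) = 0 := by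
    intro x y hxy
    apply zero_of R hR f hf h0
    rw [← nrm_pt] at hxy
    exact le_of_sq_le_sq hxy (norm_nonneg _)
  have hg : ∀ x y : ℝ, IsometryEquiv.addRight (!₂[t₁, t₂] : Plane) !₂[x, y] =
      !₂[t₁ + x, t₂ + y] := by
    intro x y
    rw [IsometryEquiv.addRight_apply]
    ext i
    fin_cases i <;> simp <;> ring
  refine ⟨IsometryEquiv.addRight !₂[t₁, t₂], 0, ?_, ?_, ?_, ?_, ?_⟩
  · rw [interior_closedBall _ hR.ne', IsometryEquiv.addRight_apply, zero_add, Metric.mem_ball,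
      dist_zero_right]
    refine lt_of_pow_lt_pow_left₀ 2 hR.le ?_
    rw [nrm_pt]
    exact ht
  · rw [hg]; exact hz _ _ h1
  · rw [hg]; exact hz _ _ (by simpa [sub_eq_add_neg] using h2)
  · rw [hg]; exact hz _ _ (by simpa [sub_eq_add_neg] using h3)
  · rw [hg]; exact hz _ _ (by simpa [sub_eq_add_neg] using h4)

lemma good_small (R a b : ℝ) (hR : 0 < R) (h : R ≤ √(a ^ 2 + b ^ 2) / 2) :
    IsGood (Metric.closedBall 0 R) a b := by
  have h1 : R ^ 2 ≤ (a ^ 2 + b ^ 2) / 4 := by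
    have h2 := Real.sq_sqrt (by positivity : 0 ≤ a ^ 2 + b ^ 2)
    nlinarith
  apply good_of R a b 0 0 hR <;> nlinarith [pow_pos hR 2]

lemma good_thin (R a b : ℝ) (hR : 0 < R) (ha : 0 < a) (hb : 0 < b)
    (h : R < (a ^ 2 + b ^ 2) / (4 * min a b)) : IsGood (Metric.closedBall 0 R) a b := by
  have key : ∀ p q : ℝ, 0 < p → 0 < q → R < (p ^ 2 + q ^ 2) / (4 * p) →
      ∃ t : ℝ, 0 ≤ t ∧ t < R ∧ R ^ 2 ≤ (t - p / 2) ^ 2 + (q / 2) ^ 2 := by
    intro p q hp hq hh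
    rw [lt_div_iff₀ (by positivity)] at hh
    have hk : 0 < (p ^ 2 + q ^ 2) / 4 - R * p := by linarith
    obtain ⟨e, he⟩ : ∃ e, e = ((p ^ 2 + q ^ 2) / 4 - R * p) / (2 * R) := ⟨_, rfl⟩
    have he0 : 0 < e := by rw [he]; positivity
    have heR : e * (2 * R) = (p ^ 2 + q ^ 2) / 4 - R * p := by rw [he]; field_simp
    rcases le_or_gt e R with h1 | h1
    · exact ⟨R - e, by linarith, by linarith, by nlinarith⟩
    · refine ⟨0, le_rfl, hR, ?_⟩
      have : R * (2 * R) < e * (2 * R) := by gcongr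
      nlinarith
  rcases min_choice a b with e | e <;> rw [e] at h
  · obtain ⟨t, ht0, htR, ht⟩ := key a b ha hb h
    have h5 : t ^ 2 < R ^ 2 := by gcongr
    apply good_of R a b t 0 hR <;> nlinarith [mul_nonneg ht0 ha.le]
  · rw [add_comm (a ^ 2)] at h
    obtain ⟨t, ht0, htR, ht⟩ := key b a hb ha h
    have h5 : t ^ 2 < R ^ 2 := by gcongr
    apply good_of R a b 0 t hR <;> nlinarith [mul_nonneg ht0 hb.le]

/-- The two diagonals of the rectangle, in complex notation. -/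
theorem pair_case (c s : ℝ) (hcs : c ^ 2 + s ^ 2 = 1) (ζ w : ℂ) (hζ : ‖ζ‖ = 1) (hw : ‖w‖ = 1)
    (h : (w * (starRingEnd ℂ) ζ).re = c ^ 2 - s ^ 2) :
    w = ζ * ⟨c, s⟩ ^ 2 ∨ ζ = w * ⟨c, s⟩ ^ 2 := by
  obtain ⟨D, hD⟩ : ∃ D, D = w * (starRingEnd ℂ) ζ := ⟨_, rfl⟩
  have hn : Complex.normSq D = 1 := by
    rw [hD, Complex.normSq_eq_norm_sq, norm_mul, RCLike.norm_conj, hζ, hw]; norm_num
  rw [← hD] at h
  rw [Complex.normSq_apply, h] at hn
  have hi : (D.im - 2 * c * s) * (D.im + 2 * c * s) = 0 := by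
    linear_combination hn - (c ^ 2 + s ^ 2 + 1) * hcs
  have hz : ζ * (starRingEnd ℂ) ζ = 1 := by
    rw [mul_conj, normSq_eq_norm_sq, hζ]; norm_num
  have hz' : w * (starRingEnd ℂ) w = 1 := by
    rw [mul_conj, normSq_eq_norm_sq, hw]; norm_num
  have hsq : (⟨c, s⟩ : ℂ) ^ 2 = ⟨c ^ 2 - s ^ 2, 2 * c * s⟩ :=
    Complex.ext (w2re c s) (w2im c s)
  rw [hsq]
  rcases mul_eq_zero.mp hi with h1 | h1
  · left
    have : D = ⟨c ^ 2 - s ^ 2, 2 * c * s⟩ := by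
      apply Complex.ext
      · exact h
      · simp only
        linarith
    rw [← this, hD]
    linear_combination (-w) * hz
  · right
    have : (starRingEnd ℂ) D = ⟨c ^ 2 - s ^ 2, 2 * c * s⟩ := by
      apply Complex.ext
      · rw [conj_re]; exact h
      · rw [conj_im]
        simp only
        linarith
    rw [← this, hD, map_mul, Complex.conj_conj]
    linear_combination (-ζ) * hz'

lemma not_good (R a b : ℝ) (hR : 0 < R) (ha : 0 < a) (hb : 0 < b) (hab : a ≠ b)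
    (h3 : b ≠ √3 * a) (h3' : a ≠ √3 * b) (h1 : √(a ^ 2 + b ^ 2) / 2 < R)
    (h2 : (a ^ 2 + b ^ 2) / (4 * min a b) ≤ R) : ¬ IsGood (Metric.closedBall 0 R) a b := by
  obtain ⟨κ, hκ⟩ : ∃ κ, κ = √(a ^ 2 + b ^ 2) / 2 := ⟨_, rfl⟩
  have hsum : 0 < a ^ 2 + b ^ 2 := by positivity
  have hκ0 : 0 < κ := by rw [hκ]; positivity
  have hκ2 : 4 * κ ^ 2 = a ^ 2 + b ^ 2 := by
    rw [hκ, div_pow, Real.sq_sqrt hsum.le]; ring
  have hs3 : √3 ^ 2 = 3 := Real.sq_sqrt (by norm_num)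
  have hs30 : 0 < √3 := Real.sqrt_pos.mpr (by norm_num)
  obtain ⟨c, hc⟩ : ∃ c, c = b / (2 * κ) := ⟨_, rfl⟩
  obtain ⟨s, hs⟩ : ∃ s, s = a / (2 * κ) := ⟨_, rfl⟩
  have hc0 : 0 < c := by rw [hc]; positivity
  have hs0 : 0 < s := by rw [hs]; positivity
  have hbc : b = 2 * κ * c := by rw [hc]; field_simp
  have has : a = 2 * κ * s := by rw [hs]; field_simp
  have hcs : c ^ 2 + s ^ 2 = 1 := by
    have : 4 * κ ^ 2 * (c ^ 2 + s ^ 2) = 4 * κ ^ 2 * 1 := by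
      rw [mul_one]
      calc _ = (2 * κ * s) ^ 2 + (2 * κ * c) ^ 2 := by ring
        _ = a ^ 2 + b ^ 2 := by rw [← hbc, ← has]
        _ = _ := hκ2.symm
    exact mul_left_cancel₀ (by positivity) this
  have g1 : c ^ 2 ≠ s ^ 2 := by
    intro e
    have : c = s := (pow_left_inj₀ hc0.le hs0.le (by norm_num)).1 e
    apply hab
    rw [hbc, has, this]
  have g2 : c ^ 2 ≠ 3 * s ^ 2 := by
    intro e
    have e2 : c ^ 2 = (√3 * s) ^ 2 := by rw [mul_pow, hs3]; exact e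
    have : c = √3 * s := (pow_left_inj₀ hc0.le (by positivity) (by norm_num)).1 e2
    apply h3
    rw [hbc, has, this]; ring
  have g3 : s ^ 2 ≠ 3 * c ^ 2 := by
    intro e
    have e2 : s ^ 2 = (√3 * c) ^ 2 := by rw [mul_pow, hs3]; exact e
    have : s = √3 * c := (pow_left_inj₀ hs0.le (by positivity) (by norm_num)).1 e2
    apply h3'
    rw [hbc, has, this]; ring
  obtain ⟨m, hm⟩ := exists_NR c s hc0 hs0 hcs g1 g2 g3
  obtain ⟨ρ, hρ⟩ : ∃ ρ, ρ = R / κ := ⟨_, rfl⟩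
  have hRρ : R = ρ * κ := by rw [hρ]; field_simp
  have hρ1 : 1 < ρ := by
    rw [hρ, lt_div_iff₀ hκ0, one_mul, hκ]
    exact h1
  have hρ0 : 0 < ρ := by linarith
  rw [div_le_iff₀ (by positivity)] at h2
  have hkk : 0 < 4 * κ ^ 2 := by positivity
  have hmin1 : 1 ≤ 2 * ρ * c := by
    have e1 : a ^ 2 + b ^ 2 ≤ R * (4 * b) := h2.trans (by gcongr; exact min_le_right _ _)
    rw [← hκ2, hRρ, hbc] at e1
    have e2 : 4 * κ ^ 2 * 1 ≤ 4 * κ ^ 2 * (2 * ρ * c) := by linarith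
    exact le_of_mul_le_mul_left e2 hkk
  have hmin2 : 1 ≤ 2 * ρ * s := by
    have e1 : a ^ 2 + b ^ 2 ≤ R * (4 * a) := h2.trans (by gcongr; exact min_le_left _ _)
    rw [← hκ2, hRρ, has] at e1
    have e2 : 4 * κ ^ 2 * 1 ≤ 4 * κ ^ 2 * (2 * ρ * s) := by linarith
    exact le_of_mul_le_mul_left e2 hkk
  obtain ⟨f, hf, hf0, hfz, hfl⟩ := exists_fun m ⟨c, s⟩ hm ρ hρ1
    (fun z δ hδ hz => nontriv c s ρ hc0 hs0 hρ1 hmin1 hmin2 z δ hδ hz hcs)
  intro hgood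
  let φ : ℂ ≃ₗᵢ[ℝ] Plane := Complex.orthonormalBasisOneI.repr
  obtain ⟨g, lam, hg, h1, h2, h3, h4⟩ := hgood (fun x => f (κ⁻¹ • φ.symm x))
    (hf.comp ((φ.symm.continuous).const_smul κ⁻¹)) (fun x => hf0 _) (by
      intro x hx
      apply hfz
      rw [Metric.mem_closedBall, dist_zero_right, not_le] at hx
      rw [Complex.normSq_eq_norm_sq, norm_smul, LinearIsometryEquiv.norm_map, norm_inv,
        Real.norm_of_nonneg hκ0.le]
      have : ρ ≤ κ⁻¹ * ‖x‖ := by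
        rw [inv_mul_eq_div, le_div_iff₀ hκ0, ← hRρ]
        exact hx.le
      gcongr)
  rw [interior_closedBall _ hR.ne', Metric.mem_ball, dist_zero_right] at hg
  let L : Plane ≃ₗᵢ[ℝ] Plane := g.toRealLinearIsometryEquiv
  have hL : ∀ x, g x = g 0 + L x := by
    intro x
    have : L x = g x - g 0 := g.toRealLinearIsometryEquiv_apply x
    rw [this]; abel
  have hnn : ∀ x y : ℝ, x ^ 2 + y ^ 2 = κ ^ 2 → ‖(!₂[x, y] : Plane)‖ = κ := by
    intro x y hxy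
    have := nrm_pt x y
    rw [hxy] at this
    exact (pow_left_inj₀ (norm_nonneg _) hκ0.le (by norm_num)).1 this
  have n1 : ‖(!₂[a / 2, b / 2] : Plane)‖ = κ := hnn _ _ (by linarith)
  have n2 : ‖(!₂[-(a / 2), b / 2] : Plane)‖ = κ := hnn _ _ (by linarith)
  have m1 : (!₂[-(a / 2), -(b / 2)] : Plane) = -!₂[a / 2, b / 2] := by
    ext i; fin_cases i <;> simp
  have m2 : (!₂[a / 2, -(b / 2)] : Plane) = -!₂[-(a / 2), b / 2] := by
    ext i; fin_cases i <;> simp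
  have ip : inner ℝ (!₂[a / 2, b / 2] : Plane) !₂[-(a / 2), b / 2] = (c ^ 2 - s ^ 2) * κ ^ 2 := by
    simp [PiLp.inner_apply, Fin.sum_univ_two]
    rw [has, hbc]
    ring
  obtain ⟨z, hz⟩ : ∃ z, z = κ⁻¹ • φ.symm (g 0) := ⟨_, rfl⟩
  obtain ⟨ζ, hζ⟩ : ∃ ζ, ζ = κ⁻¹ • φ.symm (L !₂[a / 2, b / 2]) := ⟨_, rfl⟩
  obtain ⟨w, hw⟩ : ∃ w, w = κ⁻¹ • φ.symm (L !₂[-(a / 2), b / 2]) := ⟨_, rfl⟩
  have hζn : ‖ζ‖ = 1 := by
    rw [hζ, norm_smul, LinearIsometryEquiv.norm_map, LinearIsometryEquiv.norm_map, n1, norm_inv,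
      Real.norm_of_nonneg hκ0.le, inv_mul_cancel₀ hκ0.ne']
  have hwn : ‖w‖ = 1 := by
    rw [hw, norm_smul, LinearIsometryEquiv.norm_map, LinearIsometryEquiv.norm_map, n2, norm_inv,
      Real.norm_of_nonneg hκ0.le, inv_mul_cancel₀ hκ0.ne']
  have hzn : Complex.normSq z < ρ ^ 2 := by
    rw [hz, Complex.normSq_eq_norm_sq, norm_smul, LinearIsometryEquiv.norm_map, norm_inv,
      Real.norm_of_nonneg hκ0.le]
    have : κ⁻¹ * ‖g 0‖ < ρ := by
      rw [inv_mul_eq_div, div_lt_iff₀ hκ0, ← hRρ]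
      exact hg
    have h0 : 0 ≤ κ⁻¹ * ‖g 0‖ := by positivity
    gcongr
  have hip : (w * (starRingEnd ℂ) ζ).re = c ^ 2 - s ^ 2 := by
    have : inner ℝ ζ w = c ^ 2 - s ^ 2 := by
      rw [hζ, hw, real_inner_smul_left, real_inner_smul_right, LinearIsometryEquiv.inner_map_map,
        LinearIsometryEquiv.inner_map_map, ip]
      field_simp
    rw [Complex.inner] at this
    exact this
  have e1 : κ⁻¹ • φ.symm (g !₂[a / 2, b / 2]) = z + ζ := by
    rw [hL, map_add, smul_add, hz, hζ]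
  have e2 : κ⁻¹ • φ.symm (g !₂[-(a / 2), b / 2]) = z + w := by
    rw [hL, map_add, smul_add, hz, hw]
  have e3 : κ⁻¹ • φ.symm (g !₂[-(a / 2), -(b / 2)]) = z - ζ := by
    rw [m1, hL, map_neg, map_add, smul_add, map_neg, smul_neg, hz, hζ, sub_eq_add_neg]
  have e4 : κ⁻¹ • φ.symm (g !₂[a / 2, -(b / 2)]) = z - w := by
    rw [m2, hL, map_neg, map_add, smul_add, map_neg, smul_neg, hz, hw, sub_eq_add_neg]
  simp only [e1] at h1
  simp only [e2] at h2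
  simp only [e3] at h3
  simp only [e4] at h4
  have huu : (⟨c, s⟩ : ℂ) * (starRingEnd ℂ) ⟨c, s⟩ = 1 := by
    rw [mul_conj, normSq_eq_norm_sq, nrm c s hcs]; norm_num
  rcases pair_case c s hcs ζ w hζn hwn hip with h | h
  · apply hfl z (ζ * ⟨c, s⟩) lam (by rw [norm_mul, hζn, nrm c s hcs, one_mul]) hzn
    have t1 : ζ * ⟨c, s⟩ * ⟨c, s⟩ = w := by rw [h]; ring
    have t2 : ζ * ⟨c, s⟩ * (starRingEnd ℂ) ⟨c, s⟩ = ζ := by
      linear_combination ζ * huu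
    rw [t1, t2]
    exact ⟨h2, h4, h1, h3⟩
  · apply hfl z (w * ⟨c, s⟩) lam (by rw [norm_mul, hwn, nrm c s hcs, one_mul]) hzn
    have t1 : w * ⟨c, s⟩ * ⟨c, s⟩ = ζ := by rw [h]; ring
    have t2 : w * ⟨c, s⟩ * (starRingEnd ℂ) ⟨c, s⟩ = w := by
      linear_combination w * huu
    rw [t1, t2]
    exact ⟨h1, h3, h2, h4⟩

theorem main (a b : ℝ) (ha : 0 < a) (hb : 0 < b) (hab : a ≠ b) (h3 : b ≠ √3 * a)
    (h3' : a ≠ √3 * b) :
    (∀ R : ℝ, 0 < R → (IsGood (Metric.closedBall 0 R) a b ↔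
      (R ≤ √(a ^ 2 + b ^ 2) / 2 ∨ R < (a ^ 2 + b ^ 2) / (4 * min a b)))) ∧
    ∃ K : Set Plane, IsCompact K ∧ Convex ℝ K ∧ (interior K).Nonempty ∧ ¬ IsGood K a b := by
  have hiff : ∀ R : ℝ, 0 < R → (IsGood (Metric.closedBall 0 R) a b ↔
      (R ≤ √(a ^ 2 + b ^ 2) / 2 ∨ R < (a ^ 2 + b ^ 2) / (4 * min a b))) := by
    intro R hR
    constructor
    · intro h
      by_contra hn
      push Not at hn
      exact not_good R a b hR ha hb hab h3 h3' hn.1 hn.2 h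
    · rintro (h | h)
      · exact good_small R a b hR h
      · exact good_thin R a b hR ha hb h
  refine ⟨hiff, ?_⟩
  obtain ⟨R, hR⟩ : ∃ R : ℝ, R = √(a ^ 2 + b ^ 2) / 2 + (a ^ 2 + b ^ 2) / (4 * min a b) :=
    ⟨_, rfl⟩
  have hmin : 0 < min a b := lt_min ha hb
  have p1 : 0 < √(a ^ 2 + b ^ 2) / 2 := by positivity
  have p2 : 0 < (a ^ 2 + b ^ 2) / (4 * min a b) := by positivity
  refine ⟨Metric.closedBall 0 R, isCompact_closedBall _ _, convex_closedBall _ _, ?_, ?_⟩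
  · rw [interior_closedBall _ (by rw [hR]; positivity)]
    exact ⟨0, Metric.mem_ball_self (by rw [hR]; positivity)⟩
  · rw [hiff R (by rw [hR]; positivity)]
    push Not
    constructor <;> rw [hR] <;> linarith

end Pool.Agent.Y446.RT
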