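import Mathlib
import Pool.Agent.Y446.RT.Fin

/-!
# Rectangular tables over circles

Let `a ≠ b` be positive numbers whose ratio is different from `√3` and `1 / √3`. The circle of
radius `R` is good for the rectangular table with side lengths `a` and `b` if and only if
`R ≤ √(a² + b²) / 2` or `R < (a² + b²) / (4 min(a, b))`. In particular for each such shape (every
non-square rectangle except the shape `1 : √3`) there is a convex curve which is not good.
-/

set_option autoImplicit false

namespace Pool.Agent.Y446.RT.AllRatios

open Pool.Agent.Y446.RT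

/-- For every rectangular table which is neither a square nor of side ratio `√3`: the circle of
radius `R` is good for it if and only if `R ≤ √(a² + b²) / 2` or `R < (a² + b²) / (4 min(a, b))`;
in particular some convex curve is not good for it. -/
theorem all_ratios (a b : ℝ) (ha : 0 < a) (hb : 0 < b) (hab : a ≠ b) (h3 : b ≠ √3 * a)
    (h3' : a ≠ √3 * b) :
    (∀ R : ℝ, 0 < R → (IsGood (Metric.closedBall 0 R) a b ↔
      (R ≤ √(a ^ 2 + b ^ 2) / 2 ∨ R < (a ^ 2 + b ^ 2) / (4 * min a b)))) ∧
    ∃ K : Set Plane, IsCompact K ∧ Convex ℝ K ∧ (interior K).Nonempty ∧ ¬ IsGood K a b :=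
  main a b ha hb hab h3 h3'

end Pool.Agent.Y446.RT.AllRatios
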